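import Pool.Agent.Lib.P2ec0g.Lyap

/-!
# The alarm height: the height of the highest closed edge seen so far
-/

open MeasureTheory ProbabilityTheory Filter Topology Function
open scoped unitInterval ENNReal

namespace Pool.Agent.P2ec0g

open Pool.Agent.P2ec0f3

variable {d : ℕ}

open Classical in
/-- The alarm height of a vertex with a closed edge. -/
noncomputable def tau (F : Fin d × Bool) (ω : Set (Edge d)) (x : Vtx d) : ℤ :=
  if edgeTo x F ∈ ω then ht F x else ht F x + 1

open Classical in
/-- The alarm height at time `n`. -/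
noncomputable def alarm (F : Fin d × Bool) (ω : Set (Edge d)) (X : ℕ → Vtx d) : ℕ → ℤ
  | 0 => 1
  | n + 1 => if Full ω (X (n + 1)) then alarm F ω X n
      else max (alarm F ω X n) (tau F ω (X (n + 1)))

variable (F : Fin d × Bool) (ω : Set (Edge d)) (X : ℕ → Vtx d)

lemma ht_le_tau (x : Vtx d) : ht F x ≤ tau F ω x := by
  unfold tau; split_ifs <;> omega

lemma tau_le (x : Vtx d) : tau F ω x ≤ ht F x + 1 := by
  unfold tau; split_ifs <;> omega

lemma past_alarm (n : ℕ) : Past n (fun X => alarm F ω X n) := by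
  classical
  intro X Y h
  simp only
  induction n with
  | zero => rfl
  | succ n ih =>
    have h1 := ih fun m hm => h m (by omega)
    have h2 := h (n + 1) le_rfl
    unfold alarm
    rw [h1, h2]

lemma alarm_le_succ (n : ℕ) : alarm F ω X n ≤ alarm F ω X (n + 1) := by
  classical
  conv_rhs => unfold alarm
  split_ifs
  · exact le_rfl
  · exact le_max_left _ _

lemma alarm_mono {m n : ℕ} (h : m ≤ n) : alarm F ω X m ≤ alarm F ω X n :=
  monotone_nat_of_le_succ (fun n => alarm_le_succ F ω X n) h

lemma one_le_alarm (n : ℕ) : 1 ≤ alarm F ω X n := alarm_mono F ω X (Nat.zero_le n)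

lemma ht_zero : ht F (0 : Vtx d) = 0 := by
  unfold ht; split_ifs <;> simp

lemma tau_le_alarm {X : ℕ → Vtx d} (h0 : X 0 = 0) {n : ℕ} (h : ¬ Full ω (X n)) :
    tau F ω (X n) ≤ alarm F ω X n := by
  classical
  cases n with
  | zero =>
    have := tau_le F ω (X 0)
    rw [h0, ht_zero] at this
    rw [h0]
    exact this
  | succ n =>
    unfold alarm
    rw [if_neg h]
    exact le_max_right _ _

lemma abs_ht_le {n : ℕ} {x : Vtx d} (hx : x ∈ box d n) : |ht F x| ≤ n := by
  rw [mem_box] at hx
  have := hx F.1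
  unfold ht
  rw [abs_le]
  split_ifs <;> constructor <;> omega

lemma alarm_le {X : ℕ → Vtx d} (hX : ∀ m, X m ∈ box d m) (n : ℕ) : alarm F ω X n ≤ n + 1 := by
  classical
  induction n with
  | zero => simp [alarm]
  | succ n ih =>
    unfold alarm
    split_ifs
    · push_cast; omega
    · refine max_le (by push_cast; omega) ?_
      have h1 := tau_le F ω (X (n + 1))
      have h2 := abs_ht_le F (hX (n + 1))
      rw [abs_le] at h2
      have := h2.2
      omega

/-- The height of the upper endpoint of an edge. -/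
def top (x : Vtx d) (D : Fin d × Bool) : ℤ := max (ht F x) (ht F (nbr x D))

lemma top_eq {x y : Vtx d} {D D' : Fin d × Bool} (h : edgeTo x D = edgeTo y D') :
    top F x D = top F y D' := by
  obtain ⟨i, b⟩ := D
  obtain ⟨j, c⟩ := D'
  unfold top
  cases b <;> cases c <;> simp only [edgeTo, nbr, if_true, Bool.false_eq_true, if_false,
    Prod.mk.injEq] at h ⊢
  · obtain ⟨h1, h2⟩ := h
    subst h2
    have : x = y := sub_left_injective h1
    rw [this]
  · obtain ⟨h1, h2⟩ := h
    subst h2
    rw [← h1, sub_add_cancel, max_comm]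
  · obtain ⟨h1, h2⟩ := h
    subst h2
    rw [h1, sub_add_cancel, max_comm]
  · obtain ⟨h1, h2⟩ := h
    subst h2
    rw [h1]

lemma top_le_tau {x : Vtx d} {D : Fin d × Bool} (h : edgeTo x D ∉ ω) :
    top F x D ≤ tau F ω x := by
  unfold top
  rw [ht_nbr]
  by_cases hD : D = F
  · subst hD
    rw [dh_self]
    unfold tau
    rw [if_neg h]
    omega
  · have : dh F D ≤ 0 := by
      unfold dh
      rw [if_neg hD]
      split_ifs <;> norm_num
    have h2 := ht_le_tau F ω x
    omega

lemma exists_top {x : Vtx d} (h : ¬ Full ω x) :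
    ∃ D, edgeTo x D ∉ ω ∧ tau F ω x ≤ top F x D := by
  by_cases hF : edgeTo x F ∈ ω
  · unfold Full at h
    push Not at h
    obtain ⟨D, hD⟩ := h
    refine ⟨D, hD, ?_⟩
    unfold tau top
    rw [if_pos hF]
    exact le_max_left _ _
  · refine ⟨F, hF, ?_⟩
    unfold tau top
    rw [if_neg hF, ht_nbr, dh_self]
    exact le_max_right _ _

/-- The edge `b` is not incident to `x`. -/
def Away (b : Edge d) (x : Vtx d) : Prop := ∀ D, edgeTo x D ≠ b

/-- When the alarm height changes, a closed edge is seen for the first time. -/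
lemma exists_fresh {X : ℕ → Vtx d} (h0 : X 0 = 0) {n : ℕ}
    (h : alarm F ω X n < alarm F ω X (n + 1)) :
    ∃ D, edgeTo (X (n + 1)) D ∉ ω ∧ ∀ m < n + 1, Away (edgeTo (X (n + 1)) D) (X m) := by
  classical
  have h1 : ¬ Full ω (X (n + 1)) := by
    intro hf
    unfold alarm at h
    conv_rhs at h => rw [if_pos hf]
    cases n with
    | zero => exact absurd h (lt_irrefl _)
    | succ n =>
      conv_rhs at h => unfold alarm
      exact absurd h (lt_irrefl _)
  have h2 : alarm F ω X n < tau F ω (X (n + 1)) := by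
    have h3 : alarm F ω X (n + 1) = max (alarm F ω X n) (tau F ω (X (n + 1))) := by
      conv_lhs => unfold alarm
      rw [if_neg h1]
    rw [h3] at h
    rcases lt_max_iff.1 h with h | h
    · exact absurd h (lt_irrefl _)
    · exact h
  obtain ⟨D, hD, hD2⟩ := exists_top F ω h1
  refine ⟨D, hD, fun m hm D' hD' => ?_⟩
  have h4 : edgeTo (X m) D' ∉ ω := by rw [hD']; exact hD
  have h5 : ¬ Full ω (X m) := fun hf => h4 (hf D')
  have h6 := tau_le_alarm F ω h0 h5
  have h7 := top_le_tau F ω h4
  have h8 := top_eq F hD'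
  have h9 := alarm_mono F ω X (show m ≤ n by omega)
  omega

end Pool.Agent.P2ec0g
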