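import Pool.Agent.Lib.P2ec0g.Alarm

/-!
# Expectations: visits to vertices with a closed edge are controlled by the blocked vertices
# and by the fresh closed edges
-/

open MeasureTheory ProbabilityTheory Filter Topology Function
open scoped unitInterval ENNReal

namespace Pool.Agent.P2ec0g

open Pool.Agent.P2ec0f3

variable {d : ℕ}

lemma Past.measurable {n : ℕ} {a : (ℕ → Vtx d) → ℤ} (ha : Past n a) : Measurable a := by
  classical
  set ext : ((i : Finset.Iic n) → (fun _ : ℕ => Vtx d) i) → (ℕ → Vtx d) :=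
    fun path m => if hm : m ≤ n then path ⟨m, Finset.mem_Iic.2 hm⟩ else 0 with hext
  have h : a = (fun path => a (ext path)) ∘ (Preorder.frestrictLe (π := fun _ : ℕ => Vtx d) n) := by
    funext X
    refine ha _ _ fun m hm => ?_
    simp [hext, hm]
  rw [h]
  exact (measurable_of_countable _).comp (by fun_prop)

lemma Past.mono {n m : ℕ} {a : (ℕ → Vtx d) → ℤ} (ha : Past n a) (h : n ≤ m) : Past m a :=
  fun X Y hXY => ha X Y fun k hk => hXY k (hk.trans h)

variable (ℓ : Fin d → ℝ) (lam : ℝ) (ω : Set (Edge d)) (F : Fin d × Bool)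

lemma measurable_fun {a : (ℕ → Vtx d) → ℤ} (ha : Measurable a) (k : ℕ) (g : Vtx d → ℤ → ℝ) :
    Measurable (fun X : ℕ → Vtx d => g (X k) (a X)) := by
  have h1 : Measurable (fun X : ℕ → Vtx d => (X k, a X)) := (measurable_pi_apply k).prodMk ha
  exact (measurable_of_countable (fun r : Vtx d × ℤ => g r.1 r.2)).comp h1

lemma integrable_fun {a : (ℕ → Vtx d) → ℤ} (ha : Measurable a) (k : ℕ) (g : Vtx d → ℤ → ℝ)
    {C : ℝ} (hC : ∀ᵐ X ∂(quenched ℓ lam ω), |g (X k) (a X)| ≤ C) :
    Integrable (fun X : ℕ → Vtx d => g (X k) (a X)) (quenched ℓ lam ω) := by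
  refine Integrable.of_bound (C := C) (measurable_fun ha k g).aestronglyMeasurable ?_
  filter_upwards [hC] with X hX
  rw [Real.norm_eq_abs]
  exact hX

lemma ae_good : ∀ᵐ X ∂(quenched ℓ lam ω), X 0 = 0 ∧ ∀ m, X m ∈ box d m := by
  filter_upwards [ae_start ℓ lam ω, ae_all_iff.2 fun m => ae_mem_box ℓ lam ω m] with X h1 h2
  exact ⟨h1, h2⟩

lemma abs_lf_alarm {X : ℕ → Vtx d} (hX : ∀ m, X m ∈ box d m) (n : ℕ) {y : Vtx d}
    (hy : y ∈ box d (n + 1)) : |lf (ht F y - alarm F ω X n)| ≤ 2 * n + 3 := by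
  refine (lf_abs_le _).trans ?_
  have h1 := abs_ht_le F hy
  have h2 := alarm_le F ω hX n
  have h3 := one_le_alarm F ω X n
  have h4 : |ht F y - alarm F ω X n| ≤ 2 * n + 2 := by
    rw [abs_le] at h1 ⊢
    obtain ⟨h5, h6⟩ := h1
    push_cast at h5 h6
    constructor <;> omega
  have h5 : |((ht F y - alarm F ω X n : ℤ) : ℝ)| ≤ 2 * n + 2 := by
    rw [← Int.cast_abs]
    exact_mod_cast h4
  linarith

/-- The expected value of the Lyapunov function at time `n`. -/
noncomputable def el (n : ℕ) : ℝ :=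
  ∫ X, lf (ht F (X n) - alarm F ω X n) ∂(quenched ℓ lam ω)

/-- The probability that the forward edge is closed at time `n`. -/
noncomputable def bn (n : ℕ) : ℝ := (lawAt ℓ lam ω n).real {x | edgeTo x F ∉ ω}

/-- The probability that the forward edge is open and some edge is closed at time `n`. -/
noncomputable def un (n : ℕ) : ℝ := (lawAt ℓ lam ω n).real {x | edgeTo x F ∈ ω ∧ ¬ Full ω x}

/-- The probability that the alarm height changes at time `n + 1`. -/
noncomputable def cn (n : ℕ) : ℝ :=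
  (quenched ℓ lam ω).real {X | alarm F ω X n < alarm F ω X (n + 1)}

lemma el_nonneg (n : ℕ) : 0 ≤ el ℓ lam ω F n := integral_nonneg fun _ => lf_nonneg _

lemma el_zero : el ℓ lam ω F 0 = 3 / 2 := by
  have h : el ℓ lam ω F 0 = ∫ _X, (3 / 2 : ℝ) ∂(quenched ℓ lam ω) := by
    unfold el
    refine integral_congr_ae ?_
    filter_upwards [ae_start ℓ lam ω] with X hX
    rw [hX, ht_zero]
    simp only [alarm]
    rw [show (0 : ℤ) - 1 = -1 by norm_num, lf_neg_one]
  rw [h]
  simp

lemma integral_ind (n : ℕ) (s : Set (Vtx d)) :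
    ∫ X, s.indicator (fun _ => (1 : ℝ)) (X n) ∂(quenched ℓ lam ω) = (lawAt ℓ lam ω n).real s := by
  have h1 : ∫ x, s.indicator (fun _ => (1 : ℝ)) x ∂(lawAt ℓ lam ω n) =
      (lawAt ℓ lam ω n).real s := by
    rw [integral_indicator_const _ MeasurableSet.of_discrete, smul_eq_mul, mul_one]
  rw [← h1]
  unfold lawAt
  rw [integral_map (measurable_pi_apply n).aemeasurable
    (measurable_of_countable _).aestronglyMeasurable]

lemma measurableSet_change (n : ℕ) :
    MeasurableSet {X : ℕ → Vtx d | alarm F ω X n < alarm F ω X (n + 1)} :=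
  measurableSet_lt (past_alarm F ω n).measurable (past_alarm F ω (n + 1)).measurable

lemma lf_alarm_succ (X : ℕ → Vtx d) (n : ℕ) :
    lf (ht F (X (n + 1)) - alarm F ω X (n + 1)) ≤ lf (ht F (X (n + 1)) - alarm F ω X n) +
      3 / 2 * ({X | alarm F ω X n < alarm F ω X (n + 1)} : Set (ℕ → Vtx d)).indicator
        (fun _ => (1 : ℝ)) X := by
  classical
  by_cases h : alarm F ω X n < alarm F ω X (n + 1)
  · rw [Set.indicator_of_mem (by exact h)]
    have h1 : alarm F ω X (n + 1) ≤ max (alarm F ω X n) (ht F (X (n + 1)) + 1) := by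
      conv_lhs => unfold alarm
      split_ifs
      · exact le_max_left _ _
      · exact max_le_max le_rfl (tau_le ..)
    have h2 : min (ht F (X (n + 1)) - alarm F ω X n) (-1) ≤
        ht F (X (n + 1)) - alarm F ω X (n + 1) := by
      omega
    have h3 := lf_antitone h2
    have h4 := lf_min (ht F (X (n + 1)) - alarm F ω X n)
    linarith
  · rw [Set.indicator_of_notMem (by exact h)]
    have h1 := alarm_le_succ F ω X n
    have h2 : alarm F ω X (n + 1) = alarm F ω X n := by omega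
    rw [h2]
    linarith

variable {ℓ lam F} in
/-- One step of the Lyapunov function. -/
lemma el_succ_le {δ ε : ℝ} (hG : Gap ℓ F δ) (hlam : 0 < lam)
    (hε : Real.exp (-(lam * δ)) ≤ ε) (hε1 : ε ≤ 1 / 100) (hε2 : 2 * d * ε ≤ 1 / 10) (n : ℕ) :
    el ℓ lam ω F (n + 1) ≤ el ℓ lam ω F n + 1 / 2 * bn ℓ lam ω F n - 2 / 5 * un ℓ lam ω F n
      + 3 / 2 * cn ℓ lam ω F n := by
  classical
  set T := quenched ℓ lam ω with hT
  have hm := (past_alarm F ω n).measurable
  have hm1 := (past_alarm F ω (n + 1)).measurable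
  have hsub : ∀ X : ℕ → Vtx d, X n ∈ box d n → X n ∈ box d (n + 1) := fun X h =>
    box_mono (Nat.le_succ n) h
  have i1 : Integrable (fun X => lf (ht F (X (n + 1)) - alarm F ω X n)) T :=
    integrable_fun ℓ lam ω hm (n + 1) (fun y a => lf (ht F y - a)) (C := 2 * n + 3) (by
      filter_upwards [ae_good ℓ lam ω] with X hX
      exact abs_lf_alarm ω F hX.2 n (hX.2 (n + 1)))
  have i2 : Integrable (fun X => lf (ht F (X n) - alarm F ω X n)) T :=
    integrable_fun ℓ lam ω hm n (fun y a => lf (ht F y - a)) (C := 2 * n + 3) (by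
      filter_upwards [ae_good ℓ lam ω] with X hX
      exact abs_lf_alarm ω F hX.2 n (hsub X (hX.2 n)))
  have i3 : Integrable (fun X => lf (ht F (X (n + 1)) - alarm F ω X (n + 1))) T :=
    integrable_fun ℓ lam ω hm1 (n + 1) (fun y a => lf (ht F y - a))
      (C := 2 * ((n + 1 : ℕ) : ℝ) + 3) (by
      filter_upwards [ae_good ℓ lam ω] with X hX
      exact abs_lf_alarm ω F hX.2 (n + 1) (box_mono (Nat.le_succ _) (hX.2 (n + 1))))
  have i4 : Integrable (fun X => drift ℓ lam ω (fun y => lf (ht F y - alarm F ω X n)) (X n)) T :=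
    integrable_fun ℓ lam ω hm n (fun x a => drift ℓ lam ω (fun y => lf (ht F y - a)) x)
      (C := 1 / 2) (ae_of_all _ fun X => abs_drift_lf_le F _)
  set sB : Set (Vtx d) := {x | edgeTo x F ∉ ω} with hsB
  set sU : Set (Vtx d) := {x | edgeTo x F ∈ ω ∧ ¬ Full ω x} with hsU
  have i5 : ∀ s : Set (Vtx d), Integrable (fun X : ℕ → Vtx d => s.indicator (fun _ => (1 : ℝ)) (X n)) T :=
    fun s => integrable_fun ℓ lam ω hm n (fun x _ => s.indicator (fun _ => (1 : ℝ)) x) (C := 1)
      (ae_of_all _ fun X => by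
        by_cases h : X n ∈ s
        · simp [h]
        · simp [h])
  have i6 : Integrable (fun X => ({X | alarm F ω X n < alarm F ω X (n + 1)} :
      Set (ℕ → Vtx d)).indicator (fun _ => (1 : ℝ)) X) T :=
    (integrable_const _).indicator (measurableSet_change ω F n)
  -- the change of the alarm height
  have s1 : el ℓ lam ω F (n + 1) ≤ ∫ X, lf (ht F (X (n + 1)) - alarm F ω X n) ∂T +
      3 / 2 * cn ℓ lam ω F n := by
    have h1 : el ℓ lam ω F (n + 1) ≤ ∫ X, (lf (ht F (X (n + 1)) - alarm F ω X n) +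
      3 / 2 * ({X | alarm F ω X n < alarm F ω X (n + 1)} : Set (ℕ → Vtx d)).indicator
        (fun _ => (1 : ℝ)) X) ∂T :=
      integral_mono i3 (i1.add (i6.const_mul _)) fun X => lf_alarm_succ ω F X n
    rw [integral_add i1 (i6.const_mul _), integral_const_mul,
      integral_indicator_const _ (measurableSet_change ω F n), smul_eq_mul, mul_one] at h1
    exact h1
  -- the step
  have s2 : ∫ X, lf (ht F (X (n + 1)) - alarm F ω X n) ∂T =
      ∫ X, (lf (ht F (X n) - alarm F ω X n) +
        drift ℓ lam ω (fun y => lf (ht F y - alarm F ω X n)) (X n)) ∂T :=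
    integral_step ℓ lam ω (past_alarm F ω n) (fun y a => lf (ht F y - a)) (C := 2 * n + 3) (by
      filter_upwards [ae_good ℓ lam ω] with X hX
      intro y hy
      exact abs_lf_alarm ω F hX.2 n hy)
  have s3 : ∫ X, (lf (ht F (X n) - alarm F ω X n) +
        drift ℓ lam ω (fun y => lf (ht F y - alarm F ω X n)) (X n)) ∂T ≤
      ∫ X, (lf (ht F (X n) - alarm F ω X n) + (1 / 2 * sB.indicator (fun _ => (1 : ℝ)) (X n)
        - 2 / 5 * sU.indicator (fun _ => (1 : ℝ)) (X n))) ∂T := by
    refine integral_mono_ae (i2.add i4) (i2.add (((i5 sB).const_mul _).sub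
      ((i5 sU).const_mul _))) ?_
    filter_upwards [ae_good ℓ lam ω] with X hX
    refine add_le_add le_rfl ?_
    by_cases hF : edgeTo (X n) F ∈ ω
    · have hb : X n ∉ sB := fun h => h hF
      rw [Set.indicator_of_notMem hb]
      obtain ⟨h1, h2⟩ := drift_lf_open hG hlam hε hε1 hε2 hF (alarm F ω X n)
      by_cases hU : Full ω (X n)
      · have hu : X n ∉ sU := fun h => h.2 hU
        rw [Set.indicator_of_notMem hu]
        linarith
      · have hu : X n ∈ sU := ⟨hF, hU⟩
        rw [Set.indicator_of_mem hu]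
        have h3 := tau_le_alarm F ω hX.1 hU
        have h4 := ht_le_tau F ω (X n)
        have h5 := h2 (by omega)
        linarith
    · have hb : X n ∈ sB := hF
      have hu : X n ∉ sU := fun h => hF h.1
      rw [Set.indicator_of_mem hb, Set.indicator_of_notMem hu]
      have := drift_lf_le (ℓ := ℓ) (lam := lam) (ω := ω) (x := X n) F (alarm F ω X n)
      linarith
  have s4 : ∫ X, (lf (ht F (X n) - alarm F ω X n) + (1 / 2 * sB.indicator (fun _ => (1 : ℝ)) (X n)
        - 2 / 5 * sU.indicator (fun _ => (1 : ℝ)) (X n))) ∂T =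
      ∫ X, lf (ht F (X n) - alarm F ω X n) ∂T + (1 / 2 * (lawAt ℓ lam ω n).real sB
        - 2 / 5 * (lawAt ℓ lam ω n).real sU) := by
    have j1 : Integrable (fun X : ℕ → Vtx d => 1 / 2 * sB.indicator (fun _ => (1 : ℝ)) (X n)) T :=
      (i5 sB).const_mul _
    have j2 : Integrable (fun X : ℕ → Vtx d => 2 / 5 * sU.indicator (fun _ => (1 : ℝ)) (X n)) T :=
      (i5 sU).const_mul _
    rw [← integral_ind ℓ lam ω n sB, ← integral_ind ℓ lam ω n sU, ← integral_const_mul,
      ← integral_const_mul, ← integral_sub j1 j2]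
    exact integral_add i2 (j1.sub j2)
  rw [s4] at s3
  have e1 : el ℓ lam ω F n = ∫ X, lf (ht F (X n) - alarm F ω X n) ∂T := rfl
  have e2 : bn ℓ lam ω F n = (lawAt ℓ lam ω n).real sB := rfl
  have e3 : un ℓ lam ω F n = (lawAt ℓ lam ω n).real sU := rfl
  rw [e1, e2, e3]
  linarith

variable {ℓ lam F} in
/-- The visits to the vertices with an open forward edge and some closed edge. -/
lemma sum_un_le {δ ε : ℝ} (hG : Gap ℓ F δ) (hlam : 0 < lam)
    (hε : Real.exp (-(lam * δ)) ≤ ε) (hε1 : ε ≤ 1 / 100) (hε2 : 2 * d * ε ≤ 1 / 10) (N : ℕ) :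
    ∑ n ∈ Finset.range N, un ℓ lam ω F n ≤ 5 / 4 * ∑ n ∈ Finset.range N, bn ℓ lam ω F n +
      15 / 4 * ∑ n ∈ Finset.range N, cn ℓ lam ω F n + 15 / 4 := by
  have h : el ℓ lam ω F N ≤ 3 / 2 + 1 / 2 * ∑ n ∈ Finset.range N, bn ℓ lam ω F n
      - 2 / 5 * ∑ n ∈ Finset.range N, un ℓ lam ω F n
      + 3 / 2 * ∑ n ∈ Finset.range N, cn ℓ lam ω F n := by
    induction N with
    | zero => simp [el_zero]
    | succ N ih =>
      have := el_succ_le ω hG hlam hε hε1 hε2 N
      rw [Finset.sum_range_succ, Finset.sum_range_succ, Finset.sum_range_succ]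
      linarith
  have := el_nonneg ℓ lam ω F N
  linarith

end Pool.Agent.P2ec0g
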