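import Pool.Agent.Lib.P2ec0g.Quen
import Pool.Agent.Lib.P2ec0f3.Final
import Mathlib.Analysis.Complex.ExponentialBounds

/-!
# The comparison of the speeds for a strong bias
-/

open MeasureTheory ProbabilityTheory Filter Topology Function
open scoped unitInterval ENNReal

namespace Pool.Agent.P2ec0g

open Pool.Agent.P2ec0f3

variable {d : ℕ} {ℓ : Fin d → ℝ} {lam : ℝ} {F : Fin d × Bool}

/-- The annealed inequality in the limit. -/
theorem limit_ineq {δ ε : ℝ} (hG : Gap ℓ F δ) (hlam : 0 < lam)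
    (hε : Real.exp (-(lam * δ)) ≤ ε) (hε1 : ε ≤ 1 / 100) (hε2 : 2 * d * ε ≤ 1 / 10)
    (hq : 9 / 4 * loss ℓ lam F ≤ δ) {p : I} (hp : criticalParam d < p) {v : Fin d → ℝ}
    (hv : IsVelocity ℓ lam p v) :
    ∑ j, v j * ℓ j ≤ fs ℓ lam - (δ - 9 / 4 * loss ℓ lam F) * (1 - (p : ℝ)) *
        (1 - 2 / δ * (gain ℓ F - ∑ j, v j * ℓ j)) +
      15 / 2 * d * loss ℓ lam F * (1 - (p : ℝ)) := by
  classical
  set P := percolation d p with hP
  set S := zeroInfinite d with hS
  set V := ∑ j, v j * ℓ j with hV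
  set q := loss ℓ lam F with hqdef
  set r : ℝ := 1 - (p : ℝ) with hr
  have hr0 : 0 ≤ r := by rw [hr]; linarith [p.2.2]
  have hδ := hG.pos
  have hq0 : 0 ≤ q := loss_nonneg hG
  set A := δ - 9 / 4 * q with hA
  have hA0 : 0 ≤ A := by rw [hA]; linarith
  set L := gain ℓ F with hL
  have hSm : MeasurableSet S := measurableSet_zeroInfinite
  set s := P.real S with hs
  have hs0 : 0 < s := by
    rw [hs, measureReal_def]
    exact ENNReal.toReal_pos (percolation_ne_zero hp) (measure_ne_top _ _)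
  have hsc : P.real Sᶜ ≤ 1 := measureReal_le_one
  -- the expected heights on the event `S`
  set G : ℕ → ℝ := fun n => ∫ ω in S, eh ℓ lam n ω ∂P with hGdef
  have hGlim : Tendsto (fun n : ℕ => G n / n) atTop (𝓝 (V * s)) := by
    have h1 : ∀ n : ℕ, G n / n = ∫ ω in S, eh ℓ lam n ω / n ∂P := fun n => by
      rw [integral_div]
    simp_rw [h1]
    have h2 : V * s = ∫ _ω in S, V ∂P := by
      rw [setIntegral_const, smul_eq_mul, mul_comm]
    rw [h2]
    refine tendsto_integral_of_dominated_convergence (fun _ => ∑ j, |ℓ j|) ?_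
      (integrable_const _) ?_ ?_
    · intro n
      exact ((eh_depOn ℓ lam n).measurable.div_const _).aestronglyMeasurable
    · intro n
      exact ae_of_all _ fun ω => by
        rw [Real.norm_eq_abs]
        exact abs_eh_div_le ℓ lam n ω
    · filter_upwards [ae_of_isVelocity ℓ lam hv] with ω hω
      exact tendsto_integral_height ℓ lam ω hω
  -- the new vertices on the complement of `S`
  set J : ℕ → ℝ := fun N => ∫ ω in Sᶜ, ∑ n ∈ Finset.range N, nw ℓ lam ω n ∂P with hJ
  have hJlim : Tendsto (fun N : ℕ => J N / (N + 1)) atTop (𝓝 0) := by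
    have h1 : ∀ N : ℕ, J N / (N + 1) =
        ∫ ω in Sᶜ, (∑ n ∈ Finset.range N, nw ℓ lam ω n) / (N + 1) ∂P := fun N => by
      rw [integral_div]
    simp_rw [h1]
    have h2 : (0 : ℝ) = ∫ _ω in Sᶜ, (0 : ℝ) ∂P := by simp
    rw [h2]
    refine tendsto_integral_of_dominated_convergence (fun _ => 1) ?_
      (integrable_const _) ?_ ?_
    · intro N
      refine Measurable.aestronglyMeasurable (Measurable.div_const ?_ _)
      refine Finset.measurable_sum _ fun n _ => ?_
      obtain ⟨T, hT⟩ := nw_depOn (ℓ := ℓ) (lam := lam) n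
      exact hT.measurable
    · intro N
      refine ae_of_all _ fun ω => ?_
      have hN : (0 : ℝ) < N + 1 := by positivity
      rw [Real.norm_eq_abs, abs_div, abs_of_pos hN, abs_of_nonneg
        (Finset.sum_nonneg fun n _ => nw_nonneg ℓ lam ω n), div_le_one hN]
      linarith [sum_nw_le ℓ lam ω N]
    · filter_upwards [ae_restrict_mem hSm.compl] with ω hω
      have hfin : {x | (openGraph ω).Reachable 0 x}.Finite := by
        by_contra h
        exact hω h
      set c : ℝ := (({x | (openGraph ω).Reachable 0 x}.ncard : ℕ) : ℝ) with hc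
      have h3 : Tendsto (fun N : ℕ => c / (N + 1)) atTop (𝓝 0) :=
        tendsto_const_div_atTop_nhds_zero_nat c |>.comp (tendsto_add_atTop_nat 1) |>.congr
          fun N => by simp
      refine tendsto_of_tendsto_of_tendsto_of_le_of_le tendsto_const_nhds h3 ?_ ?_
      · intro N
        exact div_nonneg (Finset.sum_nonneg fun n _ => nw_nonneg ℓ lam ω n) (by positivity)
      · intro N
        exact div_le_div_of_nonneg_right (sum_nw_le_ncard ℓ lam ω hfin N) (by positivity)
  -- the inequality for each `N`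
  have hmain : ∀ N : ℕ, G (N + 1) ≤ (N + 1) * fs ℓ lam * s
      - A * (r * (N * (1 - 2 / δ * L) * s + 2 / δ * G N) - J N)
      + 15 / 4 * q * (r * (2 * d * ((N + 1) * s + J N + 1))) + 15 / 4 * q * s := by
    intro N
    have i1 : Integrable (fun ω => ∑ n ∈ Finset.range N, rb ℓ lam ω F n) P :=
      integrable_finsetSum _ fun n _ => integrable_rb p n
    have i2 : Integrable (fun ω => ∑ n ∈ Finset.range N, rn ℓ lam ω F n) P :=
      integrable_finsetSum _ fun n _ => integrable_rn p n
    have i3 : ∀ M : ℕ, Integrable (fun ω => ∑ n ∈ Finset.range M, nw ℓ lam ω n) P :=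
      fun M => integrable_finsetSum _ fun n _ => integrable_nw p n
    have i4 : Integrable (fun ω => ∑ n ∈ Finset.range (N + 1), cs ℓ lam ω n) P :=
      integrable_finsetSum _ fun n _ => integrable_cs p n
    have i5 : ∀ M : ℕ, Integrable (fun ω => eh ℓ lam M ω) P :=
      fun M => (eh_depOn ℓ lam M).integrable P
    have h1 : G (N + 1) ≤ ∫ ω in S, ((N + 1) * fs ℓ lam
        - A * ∑ n ∈ Finset.range N, rb ℓ lam ω F n
        + 15 / 4 * q * ∑ n ∈ Finset.range (N + 1), cs ℓ lam ω n + 15 / 4 * q) ∂P := by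
      refine integral_mono (i5 (N + 1)).restrict ?_ fun ω => ?_
      · exact ((((integrable_const _).sub (i1.const_mul A)).add
          (i4.const_mul (15 / 4 * q))).add (integrable_const _)).restrict
      · exact eh_succ_le ω hG hlam hε hε1 hε2 hq N
    have h2 : ∫ ω in S, ((N + 1) * fs ℓ lam
        - A * ∑ n ∈ Finset.range N, rb ℓ lam ω F n
        + 15 / 4 * q * ∑ n ∈ Finset.range (N + 1), cs ℓ lam ω n + 15 / 4 * q) ∂P =
        (N + 1) * fs ℓ lam * s - A * ∫ ω in S, ∑ n ∈ Finset.range N, rb ℓ lam ω F n ∂P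
        + 15 / 4 * q * ∫ ω in S, ∑ n ∈ Finset.range (N + 1), cs ℓ lam ω n ∂P
        + 15 / 4 * q * s := by
      have j1 : Integrable (fun _ : Set (Edge d) => ((N : ℝ) + 1) * fs ℓ lam)
        (P.restrict S) := integrable_const _
      have j2 : Integrable (fun ω => A * ∑ n ∈ Finset.range N, rb ℓ lam ω F n)
        (P.restrict S) := (i1.const_mul A).restrict
      have j3 : Integrable (fun ω => 15 / 4 * q * ∑ n ∈ Finset.range (N + 1), cs ℓ lam ω n)
        (P.restrict S) := (i4.const_mul _).restrict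
      have j4 : Integrable (fun _ : Set (Edge d) => 15 / 4 * q) (P.restrict S) :=
        integrable_const _
      have k1 : Integrable (fun ω => ((N : ℝ) + 1) * fs ℓ lam
        - A * ∑ n ∈ Finset.range N, rb ℓ lam ω F n) (P.restrict S) := j1.sub j2
      have k2 : Integrable (fun ω => ((N : ℝ) + 1) * fs ℓ lam
        - A * ∑ n ∈ Finset.range N, rb ℓ lam ω F n
        + 15 / 4 * q * ∑ n ∈ Finset.range (N + 1), cs ℓ lam ω n) (P.restrict S) := k1.add j3
      rw [integral_add k2 j4, integral_add k1 j3, integral_sub j1 j2, setIntegral_const,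
        setIntegral_const, integral_const_mul, integral_const_mul]
      simp only [smul_eq_mul]
      ring
    rw [h2] at h1
    -- the records with closed forward edge
    have h3 : ∫ ω in S, ∑ n ∈ Finset.range N, rb ℓ lam ω F n ∂P
        + ∫ ω in Sᶜ, ∑ n ∈ Finset.range N, rb ℓ lam ω F n ∂P =
        ∫ ω, ∑ n ∈ Finset.range N, rb ℓ lam ω F n ∂P := integral_add_compl hSm i1
    have h4 : ∫ ω in Sᶜ, ∑ n ∈ Finset.range N, rb ℓ lam ω F n ∂P ≤ J N :=
      integral_mono i1.restrict (i3 N).restrict fun ω => Finset.sum_le_sum fun n _ =>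
        (rb_le_rn ..).trans (rn_le_nw ..)
    have h5 : ∫ ω, ∑ n ∈ Finset.range N, rb ℓ lam ω F n ∂P =
        r * ∫ ω, ∑ n ∈ Finset.range N, rn ℓ lam ω F n ∂P := by
      rw [integral_finsetSum _ fun n _ => integrable_rb p n,
        integral_finsetSum _ fun n _ => integrable_rn p n, Finset.mul_sum]
      exact Finset.sum_congr rfl fun n _ => integral_rb p n
    have h6 : ∫ ω in S, ∑ n ∈ Finset.range N, rn ℓ lam ω F n ∂P ≤
        ∫ ω, ∑ n ∈ Finset.range N, rn ℓ lam ω F n ∂P :=
      setIntegral_le_integral i2 (ae_of_all _ fun ω =>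
        Finset.sum_nonneg fun n _ => rn_nonneg ℓ lam ω F n)
    have h7 : N * (1 - 2 / δ * L) * s + 2 / δ * G N ≤
        ∫ ω in S, ∑ n ∈ Finset.range N, rn ℓ lam ω F n ∂P := by
      have h8 : ∫ ω in S, (N * (1 - 2 / δ * L) + 2 / δ * eh ℓ lam N ω) ∂P =
          N * (1 - 2 / δ * L) * s + 2 / δ * G N := by
        rw [integral_add (integrable_const _) ((i5 N).const_mul _).restrict, setIntegral_const,
          integral_const_mul]
        simp only [smul_eq_mul, hGdef]
        ring
      rw [← h8]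
      refine integral_mono ((integrable_const _).add ((i5 N).const_mul _)).restrict
        i2.restrict fun ω => ?_
      exact (integral_ht_ge ω hG N).trans (integral_ht_le ℓ lam ω F N)
    have h8 : r * (N * (1 - 2 / δ * L) * s + 2 / δ * G N) - J N ≤
        ∫ ω in S, ∑ n ∈ Finset.range N, rb ℓ lam ω F n ∂P := by
      have := mul_le_mul_of_nonneg_left (h7.trans h6) hr0
      linarith
    have h9 := mul_le_mul_of_nonneg_left h8 hA0
    -- the fresh closed edges
    have h10 : ∫ ω in S, ∑ n ∈ Finset.range (N + 1), cs ℓ lam ω n ∂P ≤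
        ∫ ω, ∑ n ∈ Finset.range (N + 1), cs ℓ lam ω n ∂P :=
      setIntegral_le_integral i4 (ae_of_all _ fun ω =>
        Finset.sum_nonneg fun n _ => cs_nonneg ℓ lam ω n)
    have h11 : ∫ ω, ∑ n ∈ Finset.range (N + 1), cs ℓ lam ω n ∂P ≤
        r * (2 * d * ∫ ω, ∑ n ∈ Finset.range (N + 1), nw ℓ lam ω n ∂P) := by
      rw [integral_finsetSum _ fun n _ => integrable_cs p n,
        integral_finsetSum _ fun n _ => integrable_nw p n, Finset.mul_sum, Finset.mul_sum]
      exact Finset.sum_le_sum fun n _ => integral_cs_le p n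
    have h12 : ∫ ω in S, ∑ n ∈ Finset.range (N + 1), nw ℓ lam ω n ∂P
        + ∫ ω in Sᶜ, ∑ n ∈ Finset.range (N + 1), nw ℓ lam ω n ∂P =
        ∫ ω, ∑ n ∈ Finset.range (N + 1), nw ℓ lam ω n ∂P := integral_add_compl hSm (i3 (N + 1))
    have h13 : ∫ ω in S, ∑ n ∈ Finset.range (N + 1), nw ℓ lam ω n ∂P ≤ (N + 1) * s := by
      have h14 : ∫ _ω in S, ((N : ℝ) + 1) ∂P = (N + 1) * s := by
        rw [setIntegral_const, smul_eq_mul, mul_comm]
      rw [← h14]
      refine integral_mono (i3 (N + 1)).restrict (integrable_const _) fun ω => ?_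
      have := sum_nw_le ℓ lam ω (N + 1)
      push_cast at this
      exact this
    have h15 : ∫ ω in Sᶜ, ∑ n ∈ Finset.range (N + 1), nw ℓ lam ω n ∂P ≤ J N + 1 := by
      have h16 : ∫ ω in Sᶜ, (∑ n ∈ Finset.range N, nw ℓ lam ω n + 1) ∂P =
          J N + P.real Sᶜ := by
        rw [integral_add (i3 N).restrict (integrable_const _), setIntegral_const]
        simp [hJ]
      have h17 : ∫ ω in Sᶜ, ∑ n ∈ Finset.range (N + 1), nw ℓ lam ω n ∂P ≤
          ∫ ω in Sᶜ, (∑ n ∈ Finset.range N, nw ℓ lam ω n + 1) ∂P := by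
        refine integral_mono (i3 (N + 1)).restrict
          ((i3 N).restrict.add (integrable_const _)) fun ω => ?_
        simp only [Finset.sum_range_succ]
        linarith [nw_le_one ℓ lam ω N]
      linarith
    have h18 : ∫ ω in S, ∑ n ∈ Finset.range (N + 1), cs ℓ lam ω n ∂P ≤
        r * (2 * d * ((N + 1) * s + J N + 1)) := by
      refine h10.trans (h11.trans (mul_le_mul_of_nonneg_left ?_ hr0))
      refine mul_le_mul_of_nonneg_left ?_ (by positivity)
      linarith
    have h19 := mul_le_mul_of_nonneg_left h18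
      (mul_nonneg (by norm_num : (0 : ℝ) ≤ 15 / 4) hq0)
    linarith
  -- the limits
  have t1 : Tendsto (fun N : ℕ => G (N + 1) / (N + 1)) atTop (𝓝 (V * s)) := by
    have := hGlim.comp (tendsto_add_atTop_nat 1)
    refine this.congr fun N => ?_
    simp
  have t0 : Tendsto (fun N : ℕ => (N : ℝ) / (N + 1)) atTop (𝓝 1) :=
    tendsto_natCast_div_add_atTop (1 : ℝ)
  have t2 : Tendsto (fun N : ℕ => G N / (N + 1)) atTop (𝓝 (V * s)) := by
    have h1 : Tendsto (fun N : ℕ => G N / N * ((N : ℝ) / (N + 1))) atTop (𝓝 (V * s * 1)) :=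
      hGlim.mul t0
    rw [mul_one] at h1
    refine h1.congr' ?_
    filter_upwards [eventually_ge_atTop 1] with N hN
    have : (N : ℝ) ≠ 0 := by positivity
    field_simp
  have t3 : ∀ c : ℝ, Tendsto (fun N : ℕ => c / ((N : ℝ) + 1)) atTop (𝓝 0) := fun c =>
    tendsto_const_div_atTop_nhds_zero_nat c |>.comp (tendsto_add_atTop_nat 1) |>.congr
      fun N => by simp
  have t4 : Tendsto (fun N : ℕ => fs ℓ lam * s
      - A * (r * (((N : ℝ) / (N + 1)) * ((1 - 2 / δ * L) * s) + 2 / δ * (G N / (N + 1)))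
        - J N / (N + 1))
      + 15 / 4 * q * (r * (2 * d * (s + J N / (N + 1) + 1 / ((N : ℝ) + 1))))
      + 15 / 4 * q * s / ((N : ℝ) + 1)) atTop
      (𝓝 (fs ℓ lam * s - A * (r * (1 * ((1 - 2 / δ * L) * s) + 2 / δ * (V * s)) - 0)
        + 15 / 4 * q * (r * (2 * d * (s + 0 + 0))) + 0)) := by
    refine Tendsto.add (Tendsto.add (Tendsto.sub tendsto_const_nhds (Tendsto.const_mul _
      (Tendsto.sub (Tendsto.const_mul _ (Tendsto.add (t0.mul_const _) (t2.const_mul _)))
        hJlim))) (Tendsto.const_mul _ (Tendsto.const_mul _ (Tendsto.const_mul _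
        (Tendsto.add (Tendsto.add tendsto_const_nhds hJlim) (t3 1)))))) (t3 _)
  have hlim := le_of_tendsto_of_tendsto' t1 t4 fun N => by
    have hN : (0 : ℝ) < N + 1 := by positivity
    have := div_le_div_of_nonneg_right (hmain N) hN.le
    refine this.trans (le_of_eq ?_)
    field_simp
  have hfin : V * s ≤ (fs ℓ lam - A * r * (1 - 2 / δ * (L - V)) + 15 / 2 * d * q * r) * s := by
    refine hlim.trans (le_of_eq ?_)
    ring
  exact le_of_mul_le_mul_right hfin hs0

/-- The drift of the height on the full lattice and the speed at `p = 1`. -/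
lemma speed_full (hp1 : criticalParam d < 1) {v₁ : Fin d → ℝ} (hv₁ : IsVelocity ℓ lam 1 v₁) :
    ∑ j, v₁ j * ℓ j = fs ℓ lam := by
  have hp1' : criticalParam d < ((1 : I) : ℝ) := hp1
  have : NeBot (ae (ProbabilityTheory.cond (percolation d 1) (zeroInfinite d))) :=
    ae_neBot.2 (cond_ne_zero hp1')
  have h3 : ∀ᵐ ω ∂(ProbabilityTheory.cond (percolation d 1) (zeroInfinite d)),
      ω = Set.univ := by
    have h4 : ∀ᵐ ω ∂(percolation d 1), ω = Set.univ := by
      unfold percolation
      rw [setBernoulli_one, ae_dirac_eq]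
      rfl
    unfold ProbabilityTheory.cond
    exact Measure.ae_smul_measure (ae_restrict_of_ae h4) _
  obtain ⟨ω, hω, rfl⟩ := (hv₁.and h3).exists
  have h1 := tendsto_integral_height ℓ lam Set.univ hω
  have h2 : ∀ n : ℕ, ∫ x, height ℓ x ∂(lawAt ℓ lam Set.univ n) = n * fs ℓ lam := by
    intro n
    induction n with
    | zero => simp [lawAt_zero, integral_dirac, height_zero]
    | succ n ih =>
      rw [integral_lawAt_succ, ih]
      have h5 : ∀ x : Vtx d, drift ℓ lam Set.univ (height ℓ) x = fs ℓ lam := fun x =>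
        drift_height_full ℓ lam Set.univ fun D => Set.mem_univ _
      simp_rw [h5]
      rw [tsum_mul_right, sum_pr]
      push_cast
      ring
  refine tendsto_nhds_unique h1 ?_
  refine (tendsto_const_nhds (x := fs ℓ lam)).congr' ?_
  filter_upwards [eventually_ge_atTop 1] with n hn
  have hn0 : (n : ℝ) ≠ 0 := by positivity
  rw [h2]
  field_simp

/-- The comparison for a strong bias in terms of the gap. -/
theorem strong_speed (hd : 2 ≤ d) {δ : ℝ} (hG : Gap ℓ F δ)
    (hlam : 30 * (d : ℝ) ^ 2 ≤ Real.exp (lam * δ)) {p : I} (hp : criticalParam d < p)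
    {v v₁ : Fin d → ℝ} (hv : IsVelocity ℓ lam p v) (hv₁ : IsVelocity ℓ lam 1 v₁) :
    ∑ j, v j * ℓ j ≤ ∑ j, v₁ j * ℓ j - δ / 8 * (1 - (p : ℝ)) := by
  have hd' : (2 : ℝ) ≤ d := by exact_mod_cast hd
  have hδ := hG.pos
  set ε : ℝ := 1 / (30 * (d : ℝ) ^ 2) with hεdef
  have hd2 : (4 : ℝ) ≤ (d : ℝ) ^ 2 := by nlinarith
  have hε : Real.exp (-(lam * δ)) ≤ ε := by
    rw [Real.exp_neg, hεdef, one_div]
    exact inv_anti₀ (by positivity) hlam
  have hε0 : 0 < ε := by positivity
  have hεd : 30 * (d : ℝ) ^ 2 * ε = 1 := by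
    rw [hεdef]; field_simp
  have hε1 : ε ≤ 1 / 100 := by
    rw [hεdef]
    apply one_div_le_one_div_of_le (by norm_num)
    linarith
  have hdε : d * ε ≤ 1 / 60 := by nlinarith
  have hε2 : 2 * d * ε ≤ 1 / 10 := by linarith
  have hlam1 : 1 ≤ lam * δ := by
    have h1 : Real.exp 1 ≤ Real.exp (lam * δ) := by
      have := Real.exp_one_lt_d9
      linarith
    exact Real.exp_le_exp.1 h1
  have hlam0 : 0 < lam := by
    by_contra h
    push Not at h
    have := mul_nonpos_of_nonpos_of_nonneg h hδ.le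
    linarith
  have hl := loss_le hG hlam1 hε
  have hl0 := loss_nonneg (lam := lam) hG
  have hl1 : loss ℓ lam F ≤ δ / 30 := by
    refine hl.trans ?_
    have : 2 * d * ε * δ ≤ 1 / 30 * δ := mul_le_mul_of_nonneg_right (by linarith) hδ.le
    linarith
  have hl2 : d * loss ℓ lam F ≤ δ / 15 := by
    have h1 := mul_le_mul_of_nonneg_left hl (by positivity : (0 : ℝ) ≤ d)
    have h2 : d * (2 * d * ε * δ) = (30 * (d : ℝ) ^ 2 * ε) * (δ / 15) := by ring
    rw [h2, hεd, one_mul] at h1
    exact h1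
  have h := limit_ineq hG hlam0 hε hε1 hε2 (by linarith) hp hv
  rw [speed_full (lt_of_lt_of_le hp p.2.2) hv₁]
  set V := ∑ j, v j * ℓ j with hV
  set q := loss ℓ lam F with hq
  set r : ℝ := 1 - (p : ℝ) with hr
  have hr0 : 0 ≤ r := by rw [hr]; linarith [p.2.2]
  have hr1 : r ≤ 1 := by rw [hr]; linarith [p.2.1]
  have hfs : fs ℓ lam = gain ℓ F - q := by rw [hq]; unfold loss; ring
  by_contra hcon
  push Not at hcon
  -- `gain - V` is small
  have h1 : gain ℓ F - V < δ / 30 + δ / 8 := by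
    have : δ / 8 * r ≤ δ / 8 := by
      have := mul_le_mul_of_nonneg_left hr1 (by positivity : 0 ≤ δ / 8)
      linarith
    rw [hfs] at hcon
    linarith
  have h2 : 41 / 60 ≤ 1 - 2 / δ * (gain ℓ F - V) := by
    have h3 : 2 / δ * (gain ℓ F - V) ≤ 2 / δ * (δ / 30 + δ / 8) :=
      mul_le_mul_of_nonneg_left h1.le (by positivity)
    have h4 : 2 / δ * (δ / 30 + δ / 8) = 19 / 60 := by field_simp; norm_num
    linarith
  have h3 : 37 / 40 * δ ≤ δ - 9 / 4 * q := by linarith
  have h4 : (37 / 40 * δ) * (41 / 60) ≤ (δ - 9 / 4 * q) * (1 - 2 / δ * (gain ℓ F - V)) :=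
    mul_le_mul h3 h2 (by norm_num) (by linarith)
  have h5 : 15 / 2 * d * q ≤ δ / 2 := by linarith
  have h6 := mul_le_mul_of_nonneg_right h4 hr0
  have h7 := mul_le_mul_of_nonneg_right h5 hr0
  have h8 : (δ - 9 / 4 * q) * r * (1 - 2 / δ * (gain ℓ F - V)) =
      (δ - 9 / 4 * q) * (1 - 2 / δ * (gain ℓ F - V)) * r := by ring
  rw [h8] at h
  have h9 : 0 ≤ δ * r := mul_nonneg hδ.le hr0
  nlinarith

end Pool.Agent.P2ec0g
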