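import Pool.Agent.Lib.P2ec0g.Expect

/-!
# Fresh closed edges and records: the annealed estimates
-/

open MeasureTheory ProbabilityTheory Filter Topology Function
open scoped unitInterval ENNReal

namespace Pool.Agent.P2ec0g

open Pool.Agent.P2ec0f3

variable {d : ℕ} (ℓ : Fin d → ℝ) (lam : ℝ) (ω : Set (Edge d)) (F : Fin d × Bool)

lemma rq_eq (q : Vtx d → Prop) (n : ℕ) (z : Vtx d) :
    rq ℓ lam ω q n z = (quenched ℓ lam ω).real ({X | ∀ m < n, q (X m)} ∩ {X | X n = z}) := by
  unfold rq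
  rw [measureReal_def, measureReal_def, kq_apply]
  rfl

lemma measurableSet_rel (q : Vtx d → Vtx d → Prop) (n : ℕ) :
    MeasurableSet {X : ℕ → Vtx d | ∀ m < n, q (X n) (X m)} := by
  have : {X : ℕ → Vtx d | ∀ m < n, q (X n) (X m)} =
      ⋂ m ∈ Finset.range n, {X : ℕ → Vtx d | q (X n) (X m)} := by
    ext X; simp
  rw [this]
  refine Finset.measurableSet_biInter _ fun m _ => ?_
  have h1 : Measurable fun X : ℕ → Vtx d => (X n, X m) :=
    (measurable_pi_apply n).prodMk (measurable_pi_apply m)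
  exact h1 (MeasurableSet.of_discrete (s := {r : Vtx d × Vtx d | q r.1 r.2}))

/-- Summation of the killed laws over the last position. -/
lemma sum_rq (q : Vtx d → Vtx d → Prop) (n : ℕ) :
    ∑ z ∈ box d n, rq ℓ lam ω (q z) n z =
      (quenched ℓ lam ω).real {X | ∀ m < n, q (X n) (X m)} := by
  classical
  have h1 : ∀ z, rq ℓ lam ω (q z) n z =
      (quenched ℓ lam ω).real ({X | ∀ m < n, q (X n) (X m)} ∩ {X | X n = z}) := by
    intro z
    rw [rq_eq]
    congr 1
    ext X
    simp only [Set.mem_inter_iff, Set.mem_ofPred_eq]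
    constructor
    · rintro ⟨h1, h2⟩
      rw [h2]
      exact ⟨h1, rfl⟩
    · rintro ⟨h1, h2⟩
      rw [h2] at h1
      exact ⟨h1, h2⟩
  rw [Finset.sum_congr rfl fun z _ => h1 z, ← measureReal_biUnion_finset]
  · rw [measureReal_def, measureReal_def]
    congr 1
    refine measure_congr ?_
    filter_upwards [ae_mem_box ℓ lam ω n] with X hX
    apply propext
    constructor
    · intro h
      obtain ⟨z, hz, h2⟩ := Set.mem_iUnion₂.1 h
      exact h2.1
    · intro h
      exact Set.mem_iUnion₂.2 ⟨X n, hX, h, rfl⟩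
  · intro a _ b _ hab
    refine Set.disjoint_left.2 fun X h1 h2 => hab ?_
    rw [← h1.2, ← h2.2]
  · intro z _
    have hm : MeasurableSet {X : ℕ → Vtx d | X n = z} :=
      (measurable_pi_apply n : Measurable fun X : ℕ → Vtx d => X n) (MeasurableSet.singleton z)
    exact (measurableSet_rel q n).inter hm

/-- The probability of a new vertex at time `n + 1`. -/
noncomputable def nw (n : ℕ) : ℝ := ∑ z ∈ box d (n + 1), rq ℓ lam ω (fun x => x ≠ z) (n + 1) z

/-- The probability of a record of the height at time `n + 1`. -/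
noncomputable def rn (n : ℕ) : ℝ :=
  ∑ z ∈ box d (n + 1), rq ℓ lam ω (fun x => ht F x < ht F z) (n + 1) z

/-- The probability of a record with closed forward edge at time `n + 1`. -/
noncomputable def rb (n : ℕ) : ℝ :=
  ∑ z ∈ box d (n + 1), rq ℓ lam ω (fun x => ht F x < ht F z) (n + 1) z * cl (edgeTo z F) ω

/-- The expected number of edges seen for the first time at time `n + 1`. -/
noncomputable def es (n : ℕ) : ℝ :=
  ∑ z ∈ box d (n + 1), ∑ D, rq ℓ lam ω (Away (edgeTo z D)) (n + 1) z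

/-- The expected number of closed edges seen for the first time at time `n + 1`. -/
noncomputable def cs (n : ℕ) : ℝ :=
  ∑ z ∈ box d (n + 1), ∑ D, rq ℓ lam ω (Away (edgeTo z D)) (n + 1) z * cl (edgeTo z D) ω

lemma nw_eq (n : ℕ) : nw ℓ lam ω n =
    (quenched ℓ lam ω).real {X | ∀ m < n + 1, X m ≠ X (n + 1)} :=
  sum_rq ℓ lam ω (fun z x => x ≠ z) (n + 1)

lemma rn_eq (n : ℕ) : rn ℓ lam ω F n =
    (quenched ℓ lam ω).real {X | ∀ m < n + 1, ht F (X m) < ht F (X (n + 1))} :=
  sum_rq ℓ lam ω (fun z x => ht F x < ht F z) (n + 1)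

lemma nw_nonneg (n : ℕ) : 0 ≤ nw ℓ lam ω n := Finset.sum_nonneg fun _ _ => rq_nonneg ..

lemma nw_le_one (n : ℕ) : nw ℓ lam ω n ≤ 1 := by
  rw [nw_eq]; exact measureReal_le_one

lemma rn_nonneg (n : ℕ) : 0 ≤ rn ℓ lam ω F n := Finset.sum_nonneg fun _ _ => rq_nonneg ..

lemma rn_le_nw (n : ℕ) : rn ℓ lam ω F n ≤ nw ℓ lam ω n := by
  rw [rn_eq, nw_eq]
  refine measureReal_mono fun X hX m hm h => ?_
  have := hX m hm
  rw [h] at this
  exact absurd this (lt_irrefl _)

lemma rb_nonneg (n : ℕ) : 0 ≤ rb ℓ lam ω F n :=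
  Finset.sum_nonneg fun _ _ => mul_nonneg (rq_nonneg ..) (cl_nonneg ..)

lemma rb_le_rn (n : ℕ) : rb ℓ lam ω F n ≤ rn ℓ lam ω F n :=
  Finset.sum_le_sum fun _ _ => mul_le_of_le_one_right (rq_nonneg ..) (cl_le_one ..)

lemma cs_nonneg (n : ℕ) : 0 ≤ cs ℓ lam ω n :=
  Finset.sum_nonneg fun _ _ => Finset.sum_nonneg fun _ _ =>
    mul_nonneg (rq_nonneg ..) (cl_nonneg ..)

/-- The records with closed forward edge are visits to vertices with closed forward edge. -/
lemma rb_le_bn (n : ℕ) : rb ℓ lam ω F n ≤ bn ℓ lam ω F (n + 1) := by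
  classical
  unfold rb bn
  have h1 : ∀ z ∈ box d (n + 1), rq ℓ lam ω (fun x => ht F x < ht F z) (n + 1) z *
      cl (edgeTo z F) ω ≤ pr ℓ lam ω (n + 1) z * cl (edgeTo z F) ω := fun z _ =>
    mul_le_mul_of_nonneg_right (rq_le_pr ..) (cl_nonneg ..)
  refine (Finset.sum_le_sum h1).trans (le_of_eq ?_)
  have h2 : (lawAt ℓ lam ω (n + 1)).real {x | edgeTo x F ∉ ω} =
      ∫ x, ({x | edgeTo x F ∉ ω} : Set (Vtx d)).indicator (fun _ => (1 : ℝ)) x
        ∂(lawAt ℓ lam ω (n + 1)) := by
    rw [integral_indicator_const _ MeasurableSet.of_discrete, smul_eq_mul, mul_one]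
  rw [h2, integral_lawAt, tsum_eq_sum (s := box d (n + 1)) fun x hx => by
    rw [pr_eq_zero ℓ lam ω hx, zero_mul]]
  refine Finset.sum_congr rfl fun z _ => ?_
  congr 1
  unfold cl
  by_cases h : edgeTo z F ∈ ω
  · rw [if_pos h, Set.indicator_of_notMem (by simpa using h)]
  · rw [if_neg h, Set.indicator_of_mem (by exact h)]

/-- The changes of the alarm height are bounded by the fresh closed edges. -/
lemma cn_le_cs (n : ℕ) : cn ℓ lam ω F n ≤ cs ℓ lam ω n := by
  classical
  unfold cn cs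
  set T := quenched ℓ lam ω with hT
  have h1 : ∀ z D, rq ℓ lam ω (Away (edgeTo z D)) (n + 1) z * cl (edgeTo z D) ω =
      T.real {X | (edgeTo z D ∉ ω) ∧ (∀ m < n + 1, Away (edgeTo z D) (X m)) ∧ X (n + 1) = z} := by
    intro z D
    by_cases h : edgeTo z D ∈ ω
    · have : {X : ℕ → Vtx d | (edgeTo z D ∉ ω) ∧ (∀ m < n + 1, Away (edgeTo z D) (X m)) ∧
          X (n + 1) = z} = ∅ := by
        ext X
        simp [h]
      rw [this]
      simp [cl, h]
    · rw [rq_eq]
      have : {X : ℕ → Vtx d | (edgeTo z D ∉ ω) ∧ (∀ m < n + 1, Away (edgeTo z D) (X m)) ∧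
          X (n + 1) = z} = {X | ∀ m < n + 1, Away (edgeTo z D) (X m)} ∩ {X | X (n + 1) = z} := by
        ext X
        simp [h]
      rw [this]
      simp [cl, h, hT]
  simp_rw [h1]
  have h2 : T.real {X | alarm F ω X n < alarm F ω X (n + 1)} ≤
      T.real (⋃ z ∈ box d (n + 1), ⋃ D ∈ (Finset.univ : Finset (Fin d × Bool)),
        {X | (edgeTo z D ∉ ω) ∧ (∀ m < n + 1, Away (edgeTo z D) (X m)) ∧ X (n + 1) = z}) := by
    rw [measureReal_def, measureReal_def]
    refine ENNReal.toReal_mono (measure_ne_top _ _) (measure_mono_ae ?_)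
    filter_upwards [ae_good ℓ lam ω] with X hX
    intro h
    obtain ⟨D, hD1, hD2⟩ := exists_fresh F ω hX.1 h
    exact Set.mem_iUnion₂.2 ⟨X (n + 1), hX.2 (n + 1), Set.mem_iUnion₂.2
      ⟨D, Finset.mem_univ D, hD1, hD2, rfl⟩⟩
  refine h2.trans ((measureReal_biUnion_finset_le _ _).trans (Finset.sum_le_sum fun z _ => ?_))
  exact measureReal_biUnion_finset_le _ _

lemma es_le (n : ℕ) : es ℓ lam ω n ≤ 2 * d * nw ℓ lam ω n := by
  classical
  unfold es
  rw [Finset.sum_comm]
  have h1 : ∀ D ∈ (Finset.univ : Finset (Fin d × Bool)),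
      ∑ z ∈ box d (n + 1), rq ℓ lam ω (Away (edgeTo z D)) (n + 1) z ≤ nw ℓ lam ω n := by
    intro D _
    rw [sum_rq ℓ lam ω (fun z x => Away (edgeTo z D) x) (n + 1), nw_eq]
    refine measureReal_mono fun X hX m hm h => ?_
    exact hX m hm D (by rw [h])
  refine (Finset.sum_le_sum h1).trans (le_of_eq ?_)
  rw [Finset.sum_const, nsmul_eq_mul, Finset.card_univ, Fintype.card_prod, Fintype.card_fin,
    Fintype.card_bool]
  push_cast
  ring

section annealed

variable {ℓ lam F}

lemma rn_depOn (n : ℕ) : ∃ T, DepOn T (fun ω => rn ℓ lam ω F n) := by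
  classical
  refine ⟨(box d (n + 1)).biUnion fun z => tq (fun x => ht F x < ht F z) (n + 1),
    fun ω ω' h => ?_⟩
  unfold rn
  refine Finset.sum_congr rfl fun z hz => ?_
  exact rq_depOn ℓ lam _ (n + 1) z ω ω' fun e he => h e (Finset.mem_biUnion.2 ⟨z, hz, he⟩)

lemma nw_depOn (n : ℕ) : ∃ T, DepOn T (fun ω => nw ℓ lam ω n) := by
  classical
  refine ⟨(box d (n + 1)).biUnion fun z => tq (fun x => x ≠ z) (n + 1),
    fun ω ω' h => ?_⟩
  unfold nw
  refine Finset.sum_congr rfl fun z hz => ?_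
  exact rq_depOn ℓ lam _ (n + 1) z ω ω' fun e he => h e (Finset.mem_biUnion.2 ⟨z, hz, he⟩)

lemma integrable_rq_cl (p : I) (q : Vtx d → Prop) (n : ℕ) (z : Vtx d) (b : Edge d) :
    Integrable (fun ω => rq ℓ lam ω q n z * cl b ω) (percolation d p) :=
  (depOn_mul_cl (rq_depOn ℓ lam q n z) b).integrable _

lemma integrable_rq (p : I) (q : Vtx d → Prop) (n : ℕ) (z : Vtx d) :
    Integrable (fun ω => rq ℓ lam ω q n z) (percolation d p) :=
  (rq_depOn ℓ lam q n z).integrable _

lemma integrable_rn (p : I) (n : ℕ) : Integrable (fun ω => rn ℓ lam ω F n) (percolation d p) := by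
  obtain ⟨T, hT⟩ := rn_depOn (ℓ := ℓ) (lam := lam) (F := F) n
  exact hT.integrable _

lemma integrable_nw (p : I) (n : ℕ) : Integrable (fun ω => nw ℓ lam ω n) (percolation d p) := by
  obtain ⟨T, hT⟩ := nw_depOn (ℓ := ℓ) (lam := lam) n
  exact hT.integrable _

lemma integrable_rb (p : I) (n : ℕ) : Integrable (fun ω => rb ℓ lam ω F n) (percolation d p) :=
  integrable_finsetSum _ fun z _ => integrable_rq_cl p _ _ z _

lemma integrable_cs (p : I) (n : ℕ) : Integrable (fun ω => cs ℓ lam ω n) (percolation d p) :=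
  integrable_finsetSum _ fun z _ => integrable_finsetSum _ fun D _ => integrable_rq_cl p _ _ z _

/-- A record has a closed forward edge with probability `1 - p`. -/
lemma integral_rb (p : I) (n : ℕ) : ∫ ω, rb ℓ lam ω F n ∂(percolation d p) =
    (1 - (p : ℝ)) * ∫ ω, rn ℓ lam ω F n ∂(percolation d p) := by
  unfold rb rn
  rw [integral_finsetSum _ fun z _ => integrable_rq_cl p _ _ z _,
    integral_finsetSum _ fun z _ => integrable_rq p _ _ z, Finset.mul_sum]
  refine Finset.sum_congr rfl fun z _ => ?_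
  refine integral_fresh p (T := tq (fun x => ht F x < ht F z) (n + 1)) ?_
    (rq_depOn ℓ lam _ (n + 1) z)
  intro h
  obtain ⟨x, D, hx, hD⟩ := mem_tq h
  have h1 := top_eq F hD
  have h2 : top F z F = ht F z + 1 := by
    unfold top
    rw [ht_nbr, dh_self]
    omega
  have h3 : top F x D ≤ ht F x + 1 := by
    unfold top
    rw [ht_nbr]
    have := dh_le_one F D
    omega
  omega

/-- The expected number of fresh closed edges. -/
lemma integral_cs_le (p : I) (n : ℕ) : ∫ ω, cs ℓ lam ω n ∂(percolation d p) ≤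
    (1 - (p : ℝ)) * (2 * d * ∫ ω, nw ℓ lam ω n ∂(percolation d p)) := by
  have hes : Integrable (fun ω => es ℓ lam ω n) (percolation d p) :=
    integrable_finsetSum _ fun z _ => integrable_finsetSum _ fun D _ => integrable_rq p _ _ z
  have h1 : ∫ ω, cs ℓ lam ω n ∂(percolation d p) =
      (1 - (p : ℝ)) * ∫ ω, es ℓ lam ω n ∂(percolation d p) := by
    unfold cs es
    rw [integral_finsetSum _ fun z _ => integrable_finsetSum _ fun D _ =>
        integrable_rq_cl p _ _ z _,
      integral_finsetSum _ fun z _ => integrable_finsetSum _ fun D _ => integrable_rq p _ _ z,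
      Finset.mul_sum]
    refine Finset.sum_congr rfl fun z _ => ?_
    rw [integral_finsetSum _ fun D _ => integrable_rq_cl p _ _ z _,
      integral_finsetSum _ fun D _ => integrable_rq p _ _ z, Finset.mul_sum]
    refine Finset.sum_congr rfl fun D _ => ?_
    refine integral_fresh p (T := tq (Away (edgeTo z D)) (n + 1)) ?_
      (rq_depOn ℓ lam _ (n + 1) z)
    intro h
    obtain ⟨x, D', hx, hD⟩ := mem_tq h
    exact hx D' hD
  rw [h1]
  refine mul_le_mul_of_nonneg_left ?_ (by linarith [p.2.2])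
  rw [← integral_const_mul]
  exact integral_mono hes ((integrable_nw p n).const_mul _) fun ω => es_le ℓ lam ω n

end annealed

end Pool.Agent.P2ec0g
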