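import Pool.Agent.Lib.P2ec0g.Step

/-!
# Heights, gains and the drift inequalities at one vertex
-/

open MeasureTheory ProbabilityTheory Filter Topology Function
open scoped unitInterval ENNReal

namespace Pool.Agent.P2ec0g

open Pool.Agent.P2ec0f3

variable {d : ℕ} (ℓ : Fin d → ℝ) (lam : ℝ)

/-- The increment of `x · ℓ` across a step in direction `D`. -/
noncomputable def gain (D : Fin d × Bool) : ℝ := if D.2 then ℓ D.1 else - ℓ D.1

/-- The coordinate of `x` in the direction `F`. -/
def ht (F : Fin d × Bool) (x : Vtx d) : ℤ := if F.2 then x F.1 else - x F.1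

/-- The increment of `ht F` across a step in direction `D`. -/
def dh (F D : Fin d × Bool) : ℤ := if D = F then 1 else if D = (F.1, !F.2) then -1 else 0

lemma sum_nbr (x : Vtx d) (D : Fin d × Bool) :
    ∑ i, ((nbr x D i - x i : ℤ) : ℝ) * ℓ i = gain ℓ D := by
  obtain ⟨j, b⟩ := D
  cases b
  · rw [Finset.sum_eq_single j]
    · simp [nbr, basisVec, gain]
    · intro i _ hij
      simp [nbr, basisVec, Pi.single_eq_of_ne hij]
    · simp
  · rw [Finset.sum_eq_single j]
    · simp [nbr, basisVec, gain]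
    · intro i _ hij
      simp [nbr, basisVec, Pi.single_eq_of_ne hij]
    · simp

lemma weight_of_mem {ω : Set (Edge d)} {x : Vtx d} {D : Fin d × Bool} (h : edgeTo x D ∈ ω) :
    weight ℓ lam ω x D = Real.exp (lam * gain ℓ D) := by
  classical
  unfold weight
  rw [if_pos h, sum_nbr]

lemma weight_of_notMem {ω : Set (Edge d)} {x : Vtx d} {D : Fin d × Bool} (h : edgeTo x D ∉ ω) :
    weight ℓ lam ω x D = 0 := by
  classical
  unfold weight
  rw [if_neg h]

lemma weight_le (ω : Set (Edge d)) (x : Vtx d) (D : Fin d × Bool) :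
    weight ℓ lam ω x D ≤ Real.exp (lam * gain ℓ D) := by
  by_cases h : edgeTo x D ∈ ω
  · rw [weight_of_mem ℓ lam h]
  · rw [weight_of_notMem ℓ lam h]; positivity

lemma height_nbr (x : Vtx d) (D : Fin d × Bool) :
    height ℓ (nbr x D) - height ℓ x = gain ℓ D := by
  rw [← sum_nbr ℓ x D]
  unfold height
  rw [← Finset.sum_sub_distrib]
  refine Finset.sum_congr rfl fun i _ => ?_
  push_cast
  ring

lemma ht_nbr (F D : Fin d × Bool) (x : Vtx d) : ht F (nbr x D) = ht F x + dh F D := by
  obtain ⟨i, b⟩ := F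
  obtain ⟨j, c⟩ := D
  by_cases hij : i = j
  · subst hij
    cases b <;> cases c <;> simp [ht, nbr, basisVec, dh] <;> ring
  · have hji : ¬ j = i := fun h => hij h.symm
    cases b <;> cases c <;> simp [ht, nbr, basisVec, dh, hij, hji, Pi.single_eq_of_ne]

lemma dh_self (F : Fin d × Bool) : dh F F = 1 := by simp [dh]

lemma dh_cases (F D : Fin d × Bool) : dh F D = 1 ∨ dh F D = -1 ∨ dh F D = 0 := by
  unfold dh; split_ifs <;> simp

lemma dh_le_one (F D : Fin d × Bool) : dh F D ≤ 1 := by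
  rcases dh_cases F D with h | h | h <;> omega

/-- The standing hypothesis: the direction `F` has the largest gain, with a gap `δ`. -/
structure Gap (F : Fin d × Bool) (δ : ℝ) : Prop where
  pos : 0 < δ
  gap : ∀ D, D ≠ F → gain ℓ D + δ ≤ gain ℓ F
  le : δ ≤ gain ℓ F

/-- All edges at `x` are open. -/
def Full (ω : Set (Edge d)) (x : Vtx d) : Prop := ∀ D, edgeTo x D ∈ ω

/-- The probability of a step in direction `D` from `x`. -/
noncomputable def sp (ω : Set (Edge d)) (x : Vtx d) (D : Fin d × Bool) : ℝ :=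
  weight ℓ lam ω x D / total ℓ lam ω x

variable (ω : Set (Edge d)) (x : Vtx d)

lemma sp_nonneg (D : Fin d × Bool) : 0 ≤ sp ℓ lam ω x D :=
  div_nonneg (weight_nonneg ..) (total_nonneg ..)

lemma sum_sp (h : total ℓ lam ω x ≠ 0) : ∑ D, sp ℓ lam ω x D = 1 := by
  unfold sp
  rw [← Finset.sum_div]
  exact div_self h

lemma sum_sp_le : ∑ D, sp ℓ lam ω x D ≤ 1 := by
  by_cases h : total ℓ lam ω x = 0
  · unfold sp
    simp [h]
  · exact (sum_sp ℓ lam ω x h).le

lemma drift_eq (g : Vtx d → ℝ) :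
    drift ℓ lam ω g x = ∑ D, sp ℓ lam ω x D * (g (nbr x D) - g x) := rfl

variable {ℓ lam ω x}

/-- The steps other than the forward step have small probability. -/
lemma sp_le {F : Fin d × Bool} {δ ε : ℝ} (hG : Gap ℓ F δ) (hlam : 0 < lam)
    (hε : Real.exp (-(lam * δ)) ≤ ε) (hF : edgeTo x F ∈ ω) {D : Fin d × Bool} (hD : D ≠ F) :
    sp ℓ lam ω x D ≤ ε * sp ℓ lam ω x F := by
  unfold sp
  rw [← mul_div_assoc]
  refine div_le_div_of_nonneg_right ?_ (total_nonneg ..)
  rw [weight_of_mem ℓ lam hF]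
  refine (weight_le ℓ lam ω x D).trans ?_
  have h1 : lam * gain ℓ D ≤ -(lam * δ) + lam * gain ℓ F := by
    have := mul_le_mul_of_nonneg_left (hG.gap D hD) hlam.le
    linarith
  calc Real.exp (lam * gain ℓ D) ≤ Real.exp (-(lam * δ) + lam * gain ℓ F) :=
        Real.exp_le_exp.2 h1
    _ = Real.exp (-(lam * δ)) * Real.exp (lam * gain ℓ F) := Real.exp_add _ _
    _ ≤ _ := mul_le_mul_of_nonneg_right hε (Real.exp_pos _).le

lemma total_ne_zero {F : Fin d × Bool} (hF : edgeTo x F ∈ ω) : total ℓ lam ω x ≠ 0 := by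
  have h1 : weight ℓ lam ω x F ≤ total ℓ lam ω x :=
    Finset.single_le_sum (f := fun D => weight ℓ lam ω x D) (fun D _ => weight_nonneg ..)
      (Finset.mem_univ F)
  rw [weight_of_mem ℓ lam hF] at h1
  have := Real.exp_pos (lam * gain ℓ F)
  linarith

/-- The forward step has large probability when the forward edge is open. -/
lemma le_sp_F {F : Fin d × Bool} {δ ε : ℝ} (hG : Gap ℓ F δ) (hlam : 0 < lam)
    (hε : Real.exp (-(lam * δ)) ≤ ε) (hF : edgeTo x F ∈ ω) :
    1 ≤ (1 + 2 * d * ε) * sp ℓ lam ω x F := by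
  classical
  have h1 := sum_sp ℓ lam ω x (total_ne_zero (ℓ := ℓ) (lam := lam) hF)
  rw [← Finset.add_sum_erase _ _ (Finset.mem_univ F)] at h1
  have h2 : ∑ D ∈ Finset.univ.erase F, sp ℓ lam ω x D ≤
      ∑ D ∈ (Finset.univ.erase F : Finset (Fin d × Bool)), ε * sp ℓ lam ω x F :=
    Finset.sum_le_sum fun D hD => sp_le hG hlam hε hF (Finset.ne_of_mem_erase hD)
  rw [Finset.sum_const, nsmul_eq_mul] at h2
  have hε0 : 0 < ε := lt_of_lt_of_le (Real.exp_pos _) hε
  have h3 : ((Finset.univ.erase F : Finset (Fin d × Bool)).card : ℝ) ≤ 2 * d := by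
    have h4 : (Finset.univ.erase F : Finset (Fin d × Bool)).card ≤
        (Finset.univ : Finset (Fin d × Bool)).card := Finset.card_le_card (Finset.erase_subset _ _)
    have h5 : (Finset.univ : Finset (Fin d × Bool)).card = d * 2 := by
      simp [Finset.card_univ]
    have : ((Finset.univ.erase F : Finset (Fin d × Bool)).card : ℝ) ≤ ((d * 2 : ℕ) : ℝ) := by
      rw [← h5]; exact_mod_cast h4
    push_cast at this
    linarith
  have h6 : 0 ≤ ε * sp ℓ lam ω x F := mul_nonneg hε0.le (sp_nonneg ..)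
  have h7 := mul_le_mul_of_nonneg_right h3 h6
  linarith

end Pool.Agent.P2ec0g
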