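import Pool.Agent.Lib.P2ec0f3.Meas

/-!
# The walk killed when it leaves a set of vertices
-/

open MeasureTheory ProbabilityTheory Filter Topology Function
open scoped unitInterval ENNReal

namespace Pool.Agent.P2ec0g

open Pool.Agent.P2ec0f3

variable {d : ℕ} (ℓ : Fin d → ℝ) (lam : ℝ)

/-- The event that all positions before time `n` satisfy `q`. -/
def inSet (q : Vtx d → Prop) (n : ℕ) : Set (ℕ → Vtx d) := {X | ∀ m < n, q (X m)}

lemma measurableSet_inSet (q : Vtx d → Prop) (n : ℕ) : MeasurableSet (inSet q n) := by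
  have : inSet q n = ⋂ m ∈ Finset.range n, (fun X : ℕ → Vtx d => X m) ⁻¹' {x | q x} := by
    ext X
    simp [inSet]
  rw [this]
  refine Finset.measurableSet_biInter _ fun m _ => ?_
  exact (measurable_pi_apply m) (MeasurableSet.of_discrete)

/-- The law of `X_n` on the event that all earlier positions satisfy `q`. -/
noncomputable def kq (ω : Set (Edge d)) (q : Vtx d → Prop) (n : ℕ) : Measure (Vtx d) :=
  ((quenched ℓ lam ω).restrict (inSet q n)).map (fun X => X n)

variable (ω : Set (Edge d)) (q : Vtx d → Prop)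

lemma kq_apply (n : ℕ) (s : Set (Vtx d)) :
    kq ℓ lam ω q n s = quenched ℓ lam ω {X | (∀ m < n, q (X m)) ∧ X n ∈ s} := by
  unfold kq
  rw [Measure.map_apply (measurable_pi_apply n) MeasurableSet.of_discrete,
    Measure.restrict_apply ((measurable_pi_apply n) MeasurableSet.of_discrete)]
  congr 1
  ext X
  simp [inSet, and_comm]

lemma kq_le_lawAt (n : ℕ) (s : Set (Vtx d)) :
    kq ℓ lam ω q n s ≤ lawAt ℓ lam ω n s := by
  rw [kq_apply]
  unfold lawAt
  rw [Measure.map_apply (measurable_pi_apply n) MeasurableSet.of_discrete]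
  exact measure_mono fun X hX => hX.2

lemma kq_eq_zero {n : ℕ} {x : Vtx d} (hx : x ∉ box d n) :
    kq ℓ lam ω q n {x} = 0 :=
  le_antisymm ((kq_le_lawAt ..).trans (lawAt_singleton_eq_zero ℓ lam ω hx).le) zero_le

lemma kq_zero : kq ℓ lam ω q 0 = Measure.dirac 0 := by
  rw [← lawAt_zero ℓ lam ω]
  unfold kq lawAt
  have : inSet q 0 = (Set.univ : Set (ℕ → Vtx d)) := by
    ext X; simp [inSet]
  rw [this, Measure.restrict_univ]

open Classical in
/-- The Markov property on the event that all positions satisfy `q`. -/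
lemma kq_succ (n : ℕ) (y : Vtx d) :
    kq ℓ lam ω q (n + 1) {y} =
      ∑ x ∈ box d n, if q x then kq ℓ lam ω q n {x} * stepLaw ℓ lam ω x {y} else 0 := by
  set T := quenched ℓ lam ω with hT
  have h := Kernel.map_frestrictLe_trajMeasure_compProd_eq_map_trajMeasure
    (X := fun _ : ℕ => Vtx d) (κ := pastKernel ℓ lam ω) (μ₀ := Measure.dirac (0 : Vtx d)) (a := n)
  set E : Set ((i : Finset.Iic n) → (fun _ : ℕ => Vtx d) i) := {path | ∀ i, q (path i)}
    with hE
  have hEm : MeasurableSet E := MeasurableSet.of_discrete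
  have h1 : kq ℓ lam ω q (n + 1) {y} =
      (T.map (fun x ↦ (Preorder.frestrictLe (π := fun _ : ℕ => Vtx d) n x, x (n + 1))))
        (E ×ˢ {y}) := by
    rw [kq_apply, Measure.map_apply (by fun_prop) (hEm.prod (MeasurableSet.singleton y))]
    congr 1
    ext X
    simp only [hE, Set.mem_ofPred_eq, Set.mem_singleton_iff, Set.mem_preimage, Set.mem_prod,
      Preorder.frestrictLe_apply]
    constructor
    · rintro ⟨h1, h2⟩
      exact ⟨fun i => h1 i (by have := Finset.mem_Iic.1 i.2; omega), h2⟩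
    · rintro ⟨h1, h2⟩
      exact ⟨fun m hm => h1 ⟨m, Finset.mem_Iic.2 (by omega)⟩, h2⟩
  rw [h1]
  change (Measure.map _ (Kernel.trajMeasure _ _)) _ = _
  rw [← h, Measure.compProd_apply_prod hEm (MeasurableSet.singleton y)]
  have h2 : ∫⁻ a in E, (pastKernel ℓ lam ω n) a {y}
      ∂(Kernel.trajMeasure (Measure.dirac (0 : Vtx d)) (pastKernel ℓ lam ω)).map
        (Preorder.frestrictLe (π := fun _ : ℕ => Vtx d) n) =
      ∫⁻ X in inSet q (n + 1), stepLaw ℓ lam ω (X n) {y} ∂T := by
    rw [← lintegral_indicator hEm, lintegral_map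
      ((Kernel.measurable_coe _ (MeasurableSet.singleton y)).indicator hEm) (by fun_prop),
      ← lintegral_indicator (measurableSet_inSet ..)]
    refine lintegral_congr fun X => ?_
    by_cases hX : X ∈ inSet q (n + 1)
    · have hX' : (Preorder.frestrictLe (π := fun _ : ℕ => Vtx d) n X) ∈ E := by
        intro i
        exact hX i (by have := Finset.mem_Iic.1 i.2; omega)
      rw [Set.indicator_of_mem hX, Set.indicator_of_mem hX']
      rfl
    · have hX' : (Preorder.frestrictLe (π := fun _ : ℕ => Vtx d) n X) ∉ E := by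
        intro hcon
        apply hX
        intro m hm
        exact hcon ⟨m, Finset.mem_Iic.2 (by omega)⟩
      rw [Set.indicator_of_notMem hX, Set.indicator_of_notMem hX']
  rw [h2]
  have h3 : ∫⁻ X in inSet q (n + 1), stepLaw ℓ lam ω (X n) {y} ∂T =
      ∫⁻ x, (if q x then stepLaw ℓ lam ω x {y} else 0) ∂(kq ℓ lam ω q n) := by
    unfold kq
    rw [lintegral_map (measurable_of_countable _) (measurable_pi_apply n),
      ← lintegral_indicator (measurableSet_inSet ..),
      ← lintegral_indicator (measurableSet_inSet ..)]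
    refine lintegral_congr fun X => ?_
    by_cases hX : X ∈ inSet q (n + 1)
    · have hX1 : X ∈ inSet q n := fun m hm => hX m (by omega)
      have hX2 : q (X n) := hX n (by omega)
      rw [Set.indicator_of_mem hX, Set.indicator_of_mem hX1, if_pos hX2]
    · rw [Set.indicator_of_notMem hX]
      by_cases hX1 : X ∈ inSet q n
      · rw [Set.indicator_of_mem hX1, if_neg]
        intro hX2
        apply hX
        intro m hm
        rcases Nat.lt_succ_iff_lt_or_eq.1 hm with h | h
        · exact hX1 m h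
        · rw [h]; exact hX2
      · rw [Set.indicator_of_notMem hX1]
  rw [h3, lintegral_countable', tsum_eq_sum (s := box d n)]
  · refine Finset.sum_congr rfl fun x _ => ?_
    split_ifs
    · ring
    · simp
  · intro x hx
    rw [kq_eq_zero ℓ lam ω q hx, mul_zero]

lemma kq_congr {ω ω' : Set (Edge d)} (n : ℕ)
    (h : ∀ x ∈ box d n, q x → ∀ D, (edgeTo x D ∈ ω ↔ edgeTo x D ∈ ω')) (y : Vtx d) :
    kq ℓ lam ω q n {y} = kq ℓ lam ω' q n {y} := by
  classical
  induction n generalizing y with
  | zero => rw [kq_zero, kq_zero]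
  | succ n ih =>
    have h' : ∀ x ∈ box d n, q x → ∀ D, (edgeTo x D ∈ ω ↔ edgeTo x D ∈ ω') :=
      fun x hx => h x (box_mono (Nat.le_succ n) hx)
    rw [kq_succ, kq_succ]
    refine Finset.sum_congr rfl fun x hx => ?_
    split_ifs with hq
    · rw [ih h' x, stepLaw_congr ℓ lam (h' x hx hq)]
    · rfl

/-- The probability that `X_n = z` and all earlier positions satisfy `q`. -/
noncomputable def rq (ω : Set (Edge d)) (q : Vtx d → Prop) (n : ℕ) (z : Vtx d) : ℝ :=
  (kq ℓ lam ω q n).real {z}

lemma rq_nonneg (n : ℕ) (z : Vtx d) : 0 ≤ rq ℓ lam ω q n z := measureReal_nonneg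

lemma rq_le_pr (n : ℕ) (z : Vtx d) : rq ℓ lam ω q n z ≤ pr ℓ lam ω n z := by
  unfold rq pr
  rw [measureReal_def, measureReal_def]
  exact ENNReal.toReal_mono (measure_ne_top _ _) (kq_le_lawAt ..)

open Classical in
/-- The edges incident to the vertices of the box which satisfy `q`. -/
noncomputable def tq (q : Vtx d → Prop) (n : ℕ) : Finset (Edge d) :=
  (((box d n).filter fun x => q x) ×ˢ (Finset.univ : Finset (Fin d × Bool))).image
    fun r => edgeTo r.1 r.2

lemma mem_tq {q : Vtx d → Prop} {n : ℕ} {e : Edge d} (he : e ∈ tq q n) :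
    ∃ x D, q x ∧ edgeTo x D = e := by
  classical
  unfold tq at he
  obtain ⟨⟨x, D⟩, hx, rfl⟩ := Finset.mem_image.1 he
  exact ⟨x, D, (Finset.mem_filter.1 (Finset.mem_product.1 hx).1).2, rfl⟩

lemma rq_depOn (n : ℕ) (z : Vtx d) :
    DepOn (tq q n) (fun ω => rq ℓ lam ω q n z) := by
  classical
  intro ω ω' h
  simp only [rq, measureReal_def]
  rw [kq_congr ℓ lam q n (fun x hx hq D => h _ ?_) z]
  unfold tq
  exact Finset.mem_image.2 ⟨(x, D), Finset.mem_product.2
    ⟨Finset.mem_filter.2 ⟨hx, hq⟩, Finset.mem_univ _⟩, rfl⟩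

open Classical in
/-- The indicator of the edge `b` being closed. -/
noncomputable def cl (b : Edge d) (ω : Set (Edge d)) : ℝ := if b ∈ ω then 0 else 1

lemma cl_nonneg (b : Edge d) (ω : Set (Edge d)) : 0 ≤ cl b ω := by
  unfold cl; split_ifs <;> norm_num

lemma cl_le_one (b : Edge d) (ω : Set (Edge d)) : cl b ω ≤ 1 := by
  unfold cl; split_ifs <;> norm_num

lemma cl_depOn (b : Edge d) : DepOn {b} (fun ω : Set (Edge d) => cl b ω) := by
  intro ω ω' h
  have hb := h b (Finset.mem_singleton_self b)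
  by_cases h1 : b ∈ ω
  · simp [cl, h1, hb.1 h1]
  · have h2 : b ∉ ω' := fun h2 => h1 (hb.2 h2)
    simp [cl, h1, h2]

lemma depOn_mul_cl {T : Finset (Edge d)} {f : Set (Edge d) → ℝ} (hf : DepOn T f) (b : Edge d) :
    DepOn (T ∪ {b}) (fun ω => f ω * cl b ω) := by
  intro ω ω' h
  have h1 := hf ω ω' fun e he => h e (Finset.mem_union_left _ he)
  have h2 := cl_depOn b ω ω' fun e he => h e (Finset.mem_union_right _ he)
  simp only at h2
  simp only [h1, h2]

/-- A fresh edge is closed with probability `1 - p`, independently of the past. -/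
lemma integral_fresh (p : I) {T : Finset (Edge d)} {b : Edge d} (hb : b ∉ T)
    {f : Set (Edge d) → ℝ} (hf : DepOn T f) :
    ∫ ω, f ω * cl b ω ∂(percolation d p) =
      (1 - (p : ℝ)) * ∫ ω, f ω ∂(percolation d p) := by
  classical
  have hdisj : Disjoint T {b} := by simpa using hb
  have h1 := setIntegral_pat hdisj ∅ p hf
  have h3 : wt p {b} ∅ = 1 - (p : ℝ) := by
    simp [wt]
  rw [h3] at h1
  rw [← h1, ← integral_indicator (measurableSet_pat _ _)]
  refine integral_congr_ae (ae_of_all _ fun ω => ?_)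
  by_cases h4 : b ∈ ω
  · have h5 : ω ∉ pat {b} (∅ : Set (Edge d)) := by simp [pat, h4]
    simp [cl, h4, h5]
  · have h5 : ω ∈ pat {b} (∅ : Set (Edge d)) := by simp [pat, h4]
    simp [cl, h4, h5]

end Pool.Agent.P2ec0g
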