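import Pool.Agent.Lib.P2ec0g.Geom

/-!
# The Lyapunov function of the distance to the alarm height
-/

open MeasureTheory ProbabilityTheory Filter Topology Function
open scoped unitInterval ENNReal

namespace Pool.Agent.P2ec0g

open Pool.Agent.P2ec0f3

variable {d : ℕ} {ℓ : Fin d → ℝ} {lam : ℝ}

/-- The Lyapunov function. -/
noncomputable def lf (D : ℤ) : ℝ := if D ≤ 0 then 1 - (D : ℝ) / 2 else (1 / 2) ^ D.toNat

lemma lf_of_nonpos {D : ℤ} (h : D ≤ 0) : lf D = 1 - (D : ℝ) / 2 := by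
  unfold lf; rw [if_pos h]

lemma lf_of_pos {D : ℤ} (h : 0 < D) : lf D = (1 / 2) ^ D.toNat := by
  unfold lf; rw [if_neg (by omega)]

lemma lf_nonneg (D : ℤ) : 0 ≤ lf D := by
  unfold lf
  split_ifs with h
  · have : (D : ℝ) ≤ 0 := by exact_mod_cast h
    linarith
  · positivity

lemma lf_succ_of_nonpos {D : ℤ} (h : D ≤ 0) : lf (D + 1) = lf D - 1 / 2 := by
  rcases eq_or_lt_of_le h with h | h
  · subst h
    rw [lf_of_nonpos le_rfl, zero_add, lf_of_pos one_pos]
    norm_num
  · rw [lf_of_nonpos (by omega), lf_of_nonpos h.le]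
    push_cast
    ring

lemma lf_pred_of_nonpos {D : ℤ} (h : D ≤ 0) : lf (D - 1) = lf D + 1 / 2 := by
  rw [lf_of_nonpos (by omega), lf_of_nonpos h]
  push_cast
  ring

lemma lf_succ_of_pos {D : ℤ} (h : 0 < D) : lf (D + 1) = lf D / 2 := by
  rw [lf_of_pos (by omega), lf_of_pos h]
  have : (D + 1).toNat = D.toNat + 1 := by omega
  rw [this, pow_succ]
  ring

lemma lf_pred_of_pos {D : ℤ} (h : 0 < D) : lf (D - 1) = 2 * lf D := by
  by_cases h1 : D = 1
  · subst h1
    rw [lf_of_pos one_pos, lf_of_nonpos (by norm_num)]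
    norm_num
  · rw [lf_of_pos (by omega), lf_of_pos h]
    have : D.toNat = (D - 1).toNat + 1 := by omega
    rw [this, pow_succ]
    ring

lemma lf_le_half {D : ℤ} (h : 0 < D) : lf D ≤ 1 / 2 := by
  rw [lf_of_pos h]
  obtain ⟨k, hk⟩ : ∃ k, D.toNat = k + 1 := ⟨D.toNat - 1, by omega⟩
  rw [hk, pow_succ]
  have : (1 / 2 : ℝ) ^ k ≤ 1 := pow_le_one₀ (by norm_num) (by norm_num)
  linarith

lemma lf_succ_le (D : ℤ) : lf (D + 1) ≤ lf D := by
  rcases le_or_gt D 0 with h | h
  · rw [lf_succ_of_nonpos h]; linarith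
  · rw [lf_succ_of_pos h]; linarith [lf_nonneg D]

lemma lf_antitone : Antitone lf := antitone_int_of_succ_le lf_succ_le

lemma lf_pred_le (D : ℤ) : lf (D - 1) ≤ lf D + 1 / 2 := by
  rcases le_or_gt D 0 with h | h
  · rw [lf_pred_of_nonpos h]
  · rw [lf_pred_of_pos h]; linarith [lf_le_half h]

lemma lf_neg_one : lf (-1) = 3 / 2 := by
  rw [lf_of_nonpos (by norm_num)]; norm_num

lemma lf_min (D : ℤ) : lf (min D (-1)) ≤ lf D + 3 / 2 := by
  rcases le_total D (-1) with h | h
  · rw [min_eq_left h]; linarith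
  · rw [min_eq_right h, lf_neg_one]; linarith [lf_nonneg D]

lemma lf_abs_le (D : ℤ) : |lf D| ≤ 1 + |(D : ℝ)| := by
  rw [abs_of_nonneg (lf_nonneg D)]
  rcases le_or_gt D 0 with h | h
  · rw [lf_of_nonpos h]
    have : (D : ℝ) ≤ 0 := by exact_mod_cast h
    rw [abs_of_nonpos this]
    linarith
  · have := lf_le_half h
    have h2 := abs_nonneg (D : ℝ)
    linarith

/-- The increments of the Lyapunov function across a step. -/
lemma lf_step_le (F D : Fin d × Bool) (k : ℤ) : lf (k + dh F D) - lf k ≤ 1 / 2 := by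
  rcases dh_cases F D with h | h | h <;> rw [h]
  · linarith [lf_succ_le k]
  · have := lf_pred_le k
    rw [← sub_eq_add_neg]
    linarith
  · simp

lemma abs_lf_step_le (F D : Fin d × Bool) (k : ℤ) : |lf (k + dh F D) - lf k| ≤ 1 / 2 := by
  rw [abs_le]
  refine ⟨?_, lf_step_le F D k⟩
  rcases dh_cases F D with h | h | h <;> rw [h]
  · rcases le_or_gt k 0 with hk | hk
    · rw [lf_succ_of_nonpos hk]; linarith
    · rw [lf_succ_of_pos hk]; linarith [lf_le_half hk]
  · have h1 := lf_succ_le (k - 1)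
    rw [sub_add_cancel] at h1
    rw [← sub_eq_add_neg]
    linarith
  · simp

variable {ω : Set (Edge d)} {x : Vtx d}

/-- The drift of the Lyapunov function at `x` when the alarm height is `a`. -/
lemma drift_lf_le (F : Fin d × Bool) (a : ℤ) :
    drift ℓ lam ω (fun y => lf (ht F y - a)) x ≤ 1 / 2 := by
  rw [drift_eq]
  have h1 : ∀ D ∈ (Finset.univ : Finset (Fin d × Bool)),
      sp ℓ lam ω x D * (lf (ht F (nbr x D) - a) - lf (ht F x - a)) ≤
        sp ℓ lam ω x D * (1 / 2) := by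
    intro D _
    refine mul_le_mul_of_nonneg_left ?_ (sp_nonneg ..)
    rw [ht_nbr, show ht F x + dh F D - a = (ht F x - a) + dh F D by ring]
    exact lf_step_le F D _
  refine (Finset.sum_le_sum h1).trans ?_
  rw [← Finset.sum_mul]
  have := sum_sp_le ℓ lam ω x
  linarith

lemma abs_drift_lf_le (F : Fin d × Bool) (a : ℤ) :
    |drift ℓ lam ω (fun y => lf (ht F y - a)) x| ≤ 1 / 2 := by
  rw [drift_eq]
  refine (Finset.abs_sum_le_sum_abs _ _).trans ?_
  have h1 : ∀ D ∈ (Finset.univ : Finset (Fin d × Bool)),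
      |sp ℓ lam ω x D * (lf (ht F (nbr x D) - a) - lf (ht F x - a))| ≤
        sp ℓ lam ω x D * (1 / 2) := by
    intro D _
    rw [abs_mul, abs_of_nonneg (sp_nonneg ..)]
    refine mul_le_mul_of_nonneg_left ?_ (sp_nonneg ..)
    rw [ht_nbr, show ht F x + dh F D - a = (ht F x - a) + dh F D by ring]
    exact abs_lf_step_le F D _
  refine (Finset.sum_le_sum h1).trans ?_
  rw [← Finset.sum_mul]
  have := sum_sp_le ℓ lam ω x
  linarith

/-- The value of the drift in terms of the forward and the backward step. -/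
lemma drift_ht_fun (F : Fin d × Bool) (g : ℤ → ℝ) :
    drift ℓ lam ω (fun y => g (ht F y)) x =
      sp ℓ lam ω x F * (g (ht F x + 1) - g (ht F x)) +
      sp ℓ lam ω x (F.1, !F.2) * (g (ht F x - 1) - g (ht F x)) := by
  classical
  have hne : F ≠ (F.1, !F.2) := by
    intro h
    have := congrArg Prod.snd h
    simp at this
  rw [drift_eq, ← Finset.sum_subset (Finset.subset_univ {F, (F.1, !F.2)})]
  · rw [Finset.sum_pair hne, ht_nbr, ht_nbr, dh_self]
    have : dh F (F.1, !F.2) = -1 := by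
      unfold dh
      rw [if_neg hne.symm, if_pos rfl]
    rw [this, ← sub_eq_add_neg]
  · intro D _ hD
    rw [Finset.mem_insert, Finset.mem_singleton, not_or] at hD
    have : dh F D = 0 := by
      unfold dh
      rw [if_neg hD.1, if_neg hD.2]
    rw [ht_nbr, this, add_zero, sub_self, mul_zero]

/-- The drift when the forward edge is open. -/
lemma drift_lf_open {F : Fin d × Bool} {δ ε : ℝ} (hG : Gap ℓ F δ) (hlam : 0 < lam)
    (hε : Real.exp (-(lam * δ)) ≤ ε) (hε1 : ε ≤ 1 / 100) (hε2 : 2 * d * ε ≤ 1 / 10)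
    (hF : edgeTo x F ∈ ω) (a : ℤ) :
    drift ℓ lam ω (fun y => lf (ht F y - a)) x ≤ 0 ∧
      (ht F x - a ≤ 0 → drift ℓ lam ω (fun y => lf (ht F y - a)) x ≤ - (2 / 5)) := by
  have hne : (F.1, !F.2) ≠ F := by
    intro h
    have := congrArg Prod.snd h
    simp at this
  have h0 := drift_ht_fun (ℓ := ℓ) (lam := lam) (ω := ω) (x := x) F (fun k => lf (k - a))
  have h1 := sp_le hG hlam hε hF hne
  have h2 := le_sp_F hG hlam hε hF
  set P := sp ℓ lam ω x F with hP
  set Q := sp ℓ lam ω x (F.1, !F.2) with hQ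
  have hP0 : 0 ≤ P := sp_nonneg ..
  have hQ0 : 0 ≤ Q := sp_nonneg ..
  have hP1 : 10 / 11 ≤ P := by
    have := mul_le_mul_of_nonneg_right hε2 hP0
    nlinarith
  have hQ1 : Q ≤ 1 / 100 * P := h1.trans (mul_le_mul_of_nonneg_right hε1 hP0)
  rw [h0]
  set k := ht F x - a with hk
  have e1 : ht F x + 1 - a = k + 1 := by rw [hk]; ring
  have e2 : ht F x - 1 - a = k - 1 := by rw [hk]; ring
  simp only [e1, e2]
  rcases le_or_gt k 0 with hk0 | hk0
  · rw [lf_succ_of_nonpos hk0, lf_pred_of_nonpos hk0]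
    constructor
    · nlinarith
    · intro _
      nlinarith
  · rw [lf_succ_of_pos hk0, lf_pred_of_pos hk0]
    have hl := lf_nonneg k
    constructor
    · have h3 : P * (lf k / 2 - lf k) + Q * (2 * lf k - lf k) = lf k * (Q - P / 2) := by ring
      rw [h3]
      exact mul_nonpos_of_nonneg_of_nonpos hl (by linarith)
    · intro h
      omega

end Pool.Agent.P2ec0g
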