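import Pool.Agent.Lib.P2ec0g.Recs

/-!
# The quenched inequalities
-/

open MeasureTheory ProbabilityTheory Filter Topology Function
open scoped unitInterval ENNReal

namespace Pool.Agent.P2ec0g

open Pool.Agent.P2ec0f3

variable {d : ℕ} {ℓ : Fin d → ℝ} {lam : ℝ} (ω : Set (Edge d)) {F : Fin d × Bool}

lemma mul_exp_le {δ x : ℝ} (hδ : 0 < δ) (hx : δ ≤ x) (h1 : 1 ≤ lam * δ) :
    x * Real.exp (-(lam * x)) ≤ δ * Real.exp (-(lam * δ)) := by
  have hlam : 0 < lam := by
    by_contra h
    push Not at h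
    have := mul_nonpos_of_nonpos_of_nonneg h hδ.le
    linarith
  have e1 : x / δ ≤ Real.exp (x / δ - 1) := by
    have := Real.add_one_le_exp (x / δ - 1)
    linarith
  have e2 : x / δ - 1 ≤ lam * (x - δ) := by
    have h2 : x / δ - 1 = (x - δ) / δ := by field_simp
    rw [h2, div_le_iff₀ hδ]
    have h3 : 0 ≤ x - δ := by linarith
    have := mul_le_mul_of_nonneg_left h1 h3
    nlinarith
  have e3 : x / δ ≤ Real.exp (lam * (x - δ)) := e1.trans (Real.exp_le_exp.2 e2)
  have e4 : Real.exp (-(lam * δ)) = Real.exp (lam * (x - δ)) * Real.exp (-(lam * x)) := by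
    rw [← Real.exp_add]
    congr 1
    ring
  rw [e4]
  have h5 : x ≤ δ * Real.exp (lam * (x - δ)) := by
    rw [div_le_iff₀ hδ] at e3
    linarith
  have := mul_le_mul_of_nonneg_right h5 (Real.exp_pos (-(lam * x))).le
  linarith

lemma loss_eq : loss ℓ lam F = (∑ D : Fin d × Bool, Real.exp (lam * gain ℓ D) *
    (gain ℓ F - gain ℓ D)) / ∑ D : Fin d × Bool, Real.exp (lam * gain ℓ D) := by
  have h := (sum_exp_pos ℓ lam F).ne'
  unfold loss fs
  rw [eq_div_iff h, sub_mul, div_mul_cancel₀ _ h, Finset.mul_sum, ← Finset.sum_sub_distrib]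
  exact Finset.sum_congr rfl fun D _ => by ring

lemma loss_nonneg {δ : ℝ} (hG : Gap ℓ F δ) : 0 ≤ loss ℓ lam F := by
  rw [loss_eq]
  refine div_nonneg (Finset.sum_nonneg fun D _ => ?_) (sum_exp_pos ℓ lam F).le
  exact mul_nonneg (Real.exp_pos _).le (by linarith [gain_le hG D])

lemma loss_le {δ ε : ℝ} (hG : Gap ℓ F δ) (h1 : 1 ≤ lam * δ)
    (hε : Real.exp (-(lam * δ)) ≤ ε) : loss ℓ lam F ≤ 2 * d * ε * δ := by
  rw [loss_eq, div_le_iff₀ (sum_exp_pos ℓ lam F)]
  set E := Real.exp (lam * gain ℓ F) with hE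
  have hE0 : 0 < E := Real.exp_pos _
  have h2 : ∀ D ∈ (Finset.univ : Finset (Fin d × Bool)),
      Real.exp (lam * gain ℓ D) * (gain ℓ F - gain ℓ D) ≤ E * (δ * ε) := by
    intro D _
    by_cases hD : D = F
    · rw [hD, sub_self, mul_zero]
      have : 0 ≤ ε := (Real.exp_pos _).le.trans hε
      exact mul_nonneg hE0.le (mul_nonneg hG.pos.le this)
    · have h3 := hG.gap D hD
      have h4 := mul_exp_le (lam := lam) hG.pos (x := gain ℓ F - gain ℓ D) (by linarith) h1
      have h5 : Real.exp (lam * gain ℓ D) =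
          E * Real.exp (-(lam * (gain ℓ F - gain ℓ D))) := by
        rw [hE, ← Real.exp_add]
        congr 1
        ring
      rw [h5, mul_assoc]
      refine mul_le_mul_of_nonneg_left ?_ hE0.le
      rw [mul_comm]
      exact h4.trans (mul_le_mul_of_nonneg_left hε hG.pos.le)
  refine (Finset.sum_le_sum h2).trans ?_
  rw [Finset.sum_const, nsmul_eq_mul, Finset.card_univ, Fintype.card_prod, Fintype.card_fin,
    Fintype.card_bool]
  have h3 : E ≤ ∑ D : Fin d × Bool, Real.exp (lam * gain ℓ D) :=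
    Finset.single_le_sum (f := fun D : Fin d × Bool => Real.exp (lam * gain ℓ D))
      (fun _ _ => (Real.exp_pos _).le) (Finset.mem_univ F)
  have h4 : 0 ≤ 2 * d * ε * δ := by
    have : 0 ≤ ε := (Real.exp_pos _).le.trans hε
    have := hG.pos.le
    positivity
  have := mul_le_mul_of_nonneg_left h3 h4
  push_cast
  linarith

/-- The expected height in terms of the visits. -/
lemma eh_le_visits {δ : ℝ} (hG : Gap ℓ F δ) (N : ℕ) :
    eh ℓ lam N ω ≤ N * fs ℓ lam + loss ℓ lam F * ∑ n ∈ Finset.range N, un ℓ lam ω F n -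
      (δ - loss ℓ lam F) * ∑ n ∈ Finset.range N, bn ℓ lam ω F n := by
  classical
  induction N with
  | zero =>
    unfold eh
    rw [lawAt_zero, integral_dirac, height_zero]
    simp
  | succ N ih =>
    have h1 : eh ℓ lam (N + 1) ω = eh ℓ lam N ω +
        ∫ x, drift ℓ lam ω (height ℓ) x ∂(lawAt ℓ lam ω N) := by
      unfold eh
      rw [integral_lawAt_succ, integral_lawAt ℓ lam ω N (drift ℓ lam ω (height ℓ))]
    set sB : Set (Vtx d) := {x | edgeTo x F ∉ ω} with hsB
    set sU : Set (Vtx d) := {x | edgeTo x F ∈ ω ∧ ¬ Full ω x} with hsU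
    have h2 : ∫ x, drift ℓ lam ω (height ℓ) x ∂(lawAt ℓ lam ω N) ≤
        ∫ x, (fs ℓ lam + (loss ℓ lam F * sU.indicator (fun _ => (1 : ℝ)) x -
          (δ - loss ℓ lam F) * sB.indicator (fun _ => (1 : ℝ)) x)) ∂(lawAt ℓ lam ω N) := by
      refine integral_mono (integrable_lawAt ..) (integrable_lawAt ..) fun x => ?_
      by_cases hF : edgeTo x F ∈ ω
      · have hb : x ∉ sB := fun h => h hF
        rw [Set.indicator_of_notMem hb]
        by_cases hU : Full ω x
        · have hu : x ∉ sU := fun h => h.2 hU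
          rw [Set.indicator_of_notMem hu, drift_height_full ℓ lam ω hU]
          simp
        · have hu : x ∈ sU := ⟨hF, hU⟩
          rw [Set.indicator_of_mem hu]
          have := drift_height_le (ω := ω) (lam := lam) hG x
          unfold loss
          linarith
      · have hb : x ∈ sB := hF
        have hu : x ∉ sU := fun h => hF h.1
        rw [Set.indicator_of_mem hb, Set.indicator_of_notMem hu]
        have := drift_height_closed (ω := ω) (lam := lam) hG hF
        unfold loss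
        linarith
    have h3 : ∫ x, (fs ℓ lam + (loss ℓ lam F * sU.indicator (fun _ => (1 : ℝ)) x -
          (δ - loss ℓ lam F) * sB.indicator (fun _ => (1 : ℝ)) x)) ∂(lawAt ℓ lam ω N) =
        fs ℓ lam + (loss ℓ lam F * un ℓ lam ω F N - (δ - loss ℓ lam F) * bn ℓ lam ω F N) := by
      have i1 : ∀ g : Vtx d → ℝ, Integrable g (lawAt ℓ lam ω N) := integrable_lawAt ℓ lam ω N
      rw [integral_add (i1 _) (i1 _), integral_sub (i1 _) (i1 _), integral_const_mul,
        integral_const_mul, integral_indicator_const _ MeasurableSet.of_discrete,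
        integral_indicator_const _ MeasurableSet.of_discrete]
      simp only [integral_const, probReal_univ, smul_eq_mul, one_mul, mul_one]
      rfl
    rw [h3] at h2
    rw [h1, Finset.sum_range_succ, Finset.sum_range_succ]
    push_cast
    linarith

/-- The quenched inequality. -/
lemma eh_succ_le {δ ε : ℝ} (hG : Gap ℓ F δ) (hlam : 0 < lam)
    (hε : Real.exp (-(lam * δ)) ≤ ε) (hε1 : ε ≤ 1 / 100) (hε2 : 2 * d * ε ≤ 1 / 10)
    (hq : 9 / 4 * loss ℓ lam F ≤ δ) (N : ℕ) :
    eh ℓ lam (N + 1) ω ≤ (N + 1) * fs ℓ lam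
      - (δ - 9 / 4 * loss ℓ lam F) * ∑ n ∈ Finset.range N, rb ℓ lam ω F n
      + 15 / 4 * loss ℓ lam F * ∑ n ∈ Finset.range (N + 1), cs ℓ lam ω n
      + 15 / 4 * loss ℓ lam F := by
  have h1 := eh_le_visits (lam := lam) ω hG (N + 1)
  have h2 := sum_un_le ω hG hlam hε hε1 hε2 (N + 1)
  have h3 : ∑ n ∈ Finset.range (N + 1), cn ℓ lam ω F n ≤
      ∑ n ∈ Finset.range (N + 1), cs ℓ lam ω n :=
    Finset.sum_le_sum fun n _ => cn_le_cs ℓ lam ω F n
  have h4 : ∑ n ∈ Finset.range N, rb ℓ lam ω F n ≤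
      ∑ n ∈ Finset.range (N + 1), bn ℓ lam ω F n := by
    rw [Finset.sum_range_succ']
    have h5 : ∑ n ∈ Finset.range N, rb ℓ lam ω F n ≤
        ∑ n ∈ Finset.range N, bn ℓ lam ω F (n + 1) :=
      Finset.sum_le_sum fun n _ => rb_le_bn ℓ lam ω F n
    have h6 : 0 ≤ bn ℓ lam ω F 0 := measureReal_nonneg
    linarith
  have hl := loss_nonneg (lam := lam) hG
  have h5 := mul_le_mul_of_nonneg_left h2 hl
  have h6 := mul_le_mul_of_nonneg_left h3 (mul_nonneg (by norm_num : (0 : ℝ) ≤ 15 / 4) hl)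
  have h7 := mul_le_mul_of_nonneg_left h4 (sub_nonneg.2 hq)
  push_cast at h1 ⊢
  nlinarith

/-- The expected height `ht` is large when the expected height is large. -/
lemma integral_ht_ge {δ : ℝ} (hG : Gap ℓ F δ) (N : ℕ) :
    N * (1 - 2 / δ * gain ℓ F) + 2 / δ * eh ℓ lam N ω ≤
      ∫ x, (ht F x : ℝ) ∂(lawAt ℓ lam ω N) := by
  have h1 : N * (1 - 2 / δ * gain ℓ F) ≤
      ∫ x, ((ht F x : ℝ) - 2 / δ * height ℓ x) ∂(lawAt ℓ lam ω N) := by
    induction N with
    | zero =>
      rw [lawAt_zero, integral_dirac, height_zero, ht_zero]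
      simp
    | succ N ih =>
      rw [integral_lawAt_succ, ← integral_lawAt ℓ lam ω N
        (drift ℓ lam ω (fun x => (ht F x : ℝ) - 2 / δ * height ℓ x))]
      have h2 : ∫ _x, (1 - 2 / δ * gain ℓ F) ∂(lawAt ℓ lam ω N) ≤
          ∫ x, drift ℓ lam ω (fun x => (ht F x : ℝ) - 2 / δ * height ℓ x) x
            ∂(lawAt ℓ lam ω N) :=
        integral_mono (integrable_const _) (integrable_lawAt ..) fun x => drift_ht_ge ω hG x
      simp only [integral_const, probReal_univ, smul_eq_mul, one_mul] at h2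
      push_cast
      linarith
  rw [integral_sub (integrable_lawAt ..) (integrable_lawAt ..), integral_const_mul] at h1
  unfold eh
  linarith

end Pool.Agent.P2ec0g
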