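import Pool.Agent.Lib.P2ec0g.Fresh

/-!
# Records and new vertices along a path
-/

open MeasureTheory ProbabilityTheory Filter Topology Function
open scoped unitInterval ENNReal

namespace Pool.Agent.P2ec0g

open Pool.Agent.P2ec0f3

variable {d : ℕ} (ℓ : Fin d → ℝ) (lam : ℝ) (ω : Set (Edge d)) (F : Fin d × Bool)

/-- The event of a record at time `n + 1`. -/
def recE (n : ℕ) : Set (ℕ → Vtx d) := {X | ∀ m < n + 1, ht F (X m) < ht F (X (n + 1))}

/-- The event of a new vertex at time `n + 1`. -/
def newE (n : ℕ) : Set (ℕ → Vtx d) := {X | ∀ m < n + 1, X m ≠ X (n + 1)}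

lemma measurableSet_recE (n : ℕ) : MeasurableSet (recE (d := d) F n) :=
  measurableSet_rel (fun z x => ht F x < ht F z) (n + 1)

lemma measurableSet_newE (n : ℕ) : MeasurableSet (newE (d := d) n) :=
  measurableSet_rel (fun z x => x ≠ z) (n + 1)

lemma ht_le_sum {X : ℕ → Vtx d} (h0 : X 0 = 0)
    (hstep : ∀ n, ht F (X (n + 1)) ≤ ht F (X n) + 1) (N : ℕ) :
    ∀ m ≤ N, (ht F (X m) : ℝ) ≤
      ∑ n ∈ Finset.range N, (recE F n).indicator (fun _ => (1 : ℝ)) X := by
  induction N with
  | zero =>
    intro m hm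
    obtain rfl : m = 0 := by omega
    rw [h0, ht_zero]
    simp
  | succ N ih =>
    intro m hm
    rw [Finset.sum_range_succ]
    have hnn : 0 ≤ (recE F N).indicator (fun _ => (1 : ℝ)) X :=
      Set.indicator_nonneg (fun _ _ => zero_le_one) _
    rcases Nat.lt_or_ge m (N + 1) with h | h
    · have := ih m (by omega)
      linarith
    · obtain rfl : m = N + 1 := by omega
      by_cases hr : X ∈ recE F N
      · rw [Set.indicator_of_mem hr]
        have h1 := ih N le_rfl
        have h2 : (ht F (X (N + 1)) : ℝ) ≤ ht F (X N) + 1 := by exact_mod_cast hstep N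
        linarith
      · unfold recE at hr
        simp only [Set.mem_ofPred_eq] at hr
        push Not at hr
        obtain ⟨m', hm', h1⟩ := hr
        have h2 := ih m' (by omega)
        have h3 : (ht F (X (N + 1)) : ℝ) ≤ ht F (X m') := by exact_mod_cast h1
        linarith

lemma integrable_ht (N : ℕ) :
    Integrable (fun X : ℕ → Vtx d => (ht F (X N) : ℝ)) (quenched ℓ lam ω) := by
  have h2 := integrable_lawAt ℓ lam ω N (fun x => (ht F x : ℝ))
  unfold lawAt at h2
  exact (integrable_map_measure (f := fun X : ℕ → Vtx d => X N)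
    (g := fun x => (ht F x : ℝ)) (measurable_of_countable _).aestronglyMeasurable
    (measurable_pi_apply N).aemeasurable).1 h2

/-- The expected number of records dominates the expected height. -/
lemma integral_ht_le (N : ℕ) : ∫ x, (ht F x : ℝ) ∂(lawAt ℓ lam ω N) ≤
    ∑ n ∈ Finset.range N, rn ℓ lam ω F n := by
  have h1 : ∫ x, (ht F x : ℝ) ∂(lawAt ℓ lam ω N) =
      ∫ X, (ht F (X N) : ℝ) ∂(quenched ℓ lam ω) := by
    unfold lawAt
    rw [integral_map (measurable_pi_apply N).aemeasurable
      (measurable_of_countable _).aestronglyMeasurable]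
  have h2 : ∑ n ∈ Finset.range N, rn ℓ lam ω F n =
      ∫ X, ∑ n ∈ Finset.range N, (recE F n).indicator (fun _ => (1 : ℝ)) X
        ∂(quenched ℓ lam ω) := by
    rw [integral_finsetSum _ fun n _ => (integrable_const _).indicator (measurableSet_recE F n)]
    refine Finset.sum_congr rfl fun n _ => ?_
    rw [integral_indicator_const _ (measurableSet_recE F n), smul_eq_mul, mul_one, rn_eq]
    rfl
  rw [h1, h2]
  refine integral_mono_ae (integrable_ht ℓ lam ω F N) (integrable_finsetSum _ fun n _ =>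
    (integrable_const _).indicator (measurableSet_recE F n)) ?_
  filter_upwards [ae_step ℓ lam ω, ae_start ℓ lam ω] with X hX h0
  have h3 : ∀ n, ht F (X (n + 1)) ≤ ht F (X n) + 1 := by
    intro n
    rcases hX n with h | ⟨D, -, h⟩
    · rw [h]; omega
    · rw [h, ht_nbr]
      have := dh_le_one F D
      omega
  exact ht_le_sum F h0 h3 N N le_rfl

lemma sum_nw_le (N : ℕ) : ∑ n ∈ Finset.range N, nw ℓ lam ω n ≤ N := by
  refine (Finset.sum_le_sum fun n _ => nw_le_one ℓ lam ω n).trans (le_of_eq ?_)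
  simp

lemma sum_new_le_ncard {X : ℕ → Vtx d} {C : Set (Vtx d)} (hC : C.Finite) (hX : ∀ n, X n ∈ C)
    (N : ℕ) : ∑ n ∈ Finset.range N, (newE n).indicator (fun _ => (1 : ℝ)) X ≤ C.ncard := by
  classical
  have h1 : ∑ n ∈ Finset.range N, (newE n).indicator (fun _ => (1 : ℝ)) X =
      (((Finset.range N).filter fun n => X ∈ newE n).card : ℝ) := by
    rw [Finset.card_filter]
    push_cast
    refine Finset.sum_congr rfl fun n _ => ?_
    by_cases h : X ∈ newE n
    · rw [Set.indicator_of_mem h, if_pos h]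
    · rw [Set.indicator_of_notMem h, if_neg h]
  rw [h1, Set.ncard_eq_toFinset_card C hC]
  refine Nat.cast_le.2 (Finset.card_le_card_of_injOn (fun n => X (n + 1))
    (fun n _ => by simpa using hX (n + 1)) ?_)
  intro m hm n hn hmn
  simp only at hmn
  have hm' := (Finset.mem_filter.1 (Finset.mem_coe.1 hm)).2
  have hn' := (Finset.mem_filter.1 (Finset.mem_coe.1 hn)).2
  rcases lt_trichotomy m n with h | h | h
  · exact absurd hmn (hn' (m + 1) (by omega))
  · exact h
  · exact absurd hmn.symm (hm' (n + 1) (by omega))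

/-- In a finite cluster the expected number of new vertices is bounded. -/
lemma sum_nw_le_ncard (hfin : {x | (openGraph ω).Reachable 0 x}.Finite) (N : ℕ) :
    ∑ n ∈ Finset.range N, nw ℓ lam ω n ≤
      ({x | (openGraph ω).Reachable 0 x}.ncard : ℝ) := by
  have h2 : ∑ n ∈ Finset.range N, nw ℓ lam ω n =
      ∫ X, ∑ n ∈ Finset.range N, (newE n).indicator (fun _ => (1 : ℝ)) X
        ∂(quenched ℓ lam ω) := by
    rw [integral_finsetSum _ fun n _ => (integrable_const _).indicator (measurableSet_newE n)]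
    refine Finset.sum_congr rfl fun n _ => ?_
    rw [integral_indicator_const _ (measurableSet_newE n), smul_eq_mul, mul_one, nw_eq]
    rfl
  have h1 : ∫ _, ({x | (openGraph ω).Reachable 0 x}.ncard : ℝ) ∂(quenched ℓ lam ω) =
      ({x | (openGraph ω).Reachable 0 x}.ncard : ℝ) := by simp
  rw [h2, ← h1]
  refine integral_mono_ae (integrable_finsetSum _ fun n _ =>
    (integrable_const _).indicator (measurableSet_newE n)) (integrable_const _) ?_
  filter_upwards [ae_step ℓ lam ω, ae_start ℓ lam ω] with X hX h0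
  have h3 : ∀ n, X n ∈ {x | (openGraph ω).Reachable 0 x} := by
    intro n
    induction n with
    | zero => rw [h0]; exact SimpleGraph.Reachable.refl _
    | succ n ih =>
      rcases hX n with h | ⟨D, hD, h⟩
      · rw [h]; exact ih
      · rw [h]
        exact SimpleGraph.Reachable.trans ih (adj_of_edgeTo ω hD).reachable
  exact sum_new_le_ncard hfin h3 N

/-! ### The drift of the height and of `x · ℓ` -/

/-- The speed on the full lattice. -/
noncomputable def fs : ℝ :=
  (∑ D : Fin d × Bool, Real.exp (lam * gain ℓ D) * gain ℓ D) /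
    ∑ D : Fin d × Bool, Real.exp (lam * gain ℓ D)

/-- The loss on the full lattice. -/
noncomputable def loss : ℝ := gain ℓ F - fs ℓ lam

include F in
lemma sum_exp_pos : 0 < ∑ D : Fin d × Bool, Real.exp (lam * gain ℓ D) :=
  lt_of_lt_of_le (Real.exp_pos (lam * gain ℓ F))
    (Finset.single_le_sum (f := fun D : Fin d × Bool => Real.exp (lam * gain ℓ D))
      (fun _ _ => (Real.exp_pos _).le) (Finset.mem_univ F))

lemma drift_height (x : Vtx d) :
    drift ℓ lam ω (height ℓ) x = ∑ D, sp ℓ lam ω x D * gain ℓ D := by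
  rw [drift_eq]
  exact Finset.sum_congr rfl fun D _ => by rw [height_nbr]

lemma drift_height_full {x : Vtx d} (h : Full ω x) :
    drift ℓ lam ω (height ℓ) x = fs ℓ lam := by
  rw [drift_height]
  unfold sp fs total
  have h1 : ∀ D, weight ℓ lam ω x D = Real.exp (lam * gain ℓ D) := fun D =>
    weight_of_mem ℓ lam (h D)
  simp_rw [h1]
  rw [Finset.sum_div]
  exact Finset.sum_congr rfl fun D _ => by ring

variable {ℓ lam F}

lemma gain_le {δ : ℝ} (hG : Gap ℓ F δ) (D : Fin d × Bool) : gain ℓ D ≤ gain ℓ F := by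
  by_cases h : D = F
  · rw [h]
  · have := hG.gap D h
    linarith [hG.pos]

lemma drift_height_le {δ : ℝ} (hG : Gap ℓ F δ) (x : Vtx d) :
    drift ℓ lam ω (height ℓ) x ≤ gain ℓ F := by
  rw [drift_height]
  have h1 : ∑ D, sp ℓ lam ω x D * gain ℓ D ≤ ∑ D, sp ℓ lam ω x D * gain ℓ F :=
    Finset.sum_le_sum fun D _ => mul_le_mul_of_nonneg_left (gain_le hG D) (sp_nonneg ..)
  rw [← Finset.sum_mul] at h1
  have h2 := sum_sp_le ℓ lam ω x
  have h3 : 0 ≤ gain ℓ F := hG.pos.le.trans hG.le
  have := mul_le_mul_of_nonneg_right h2 h3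
  linarith

lemma drift_height_closed {δ : ℝ} (hG : Gap ℓ F δ) {x : Vtx d} (h : edgeTo x F ∉ ω) :
    drift ℓ lam ω (height ℓ) x ≤ gain ℓ F - δ := by
  rw [drift_height]
  have h0 : sp ℓ lam ω x F = 0 := by
    unfold sp
    rw [weight_of_notMem ℓ lam h, zero_div]
  have h1 : ∑ D, sp ℓ lam ω x D * gain ℓ D ≤ ∑ D, sp ℓ lam ω x D * (gain ℓ F - δ) := by
    refine Finset.sum_le_sum fun D _ => ?_
    by_cases hD : D = F
    · rw [hD, h0]; simp
    · refine mul_le_mul_of_nonneg_left ?_ (sp_nonneg ..)
      have := hG.gap D hD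
      linarith
  rw [← Finset.sum_mul] at h1
  have h2 := sum_sp_le ℓ lam ω x
  have h3 : 0 ≤ gain ℓ F - δ := by linarith [hG.le]
  have := mul_le_mul_of_nonneg_right h2 h3
  linarith

/-- The drift of the height is large when the drift of `x · ℓ` is large. -/
lemma drift_ht_ge {δ : ℝ} (hG : Gap ℓ F δ) (x : Vtx d) :
    1 - 2 / δ * gain ℓ F ≤
      drift ℓ lam ω (fun y => (ht F y : ℝ) - 2 / δ * height ℓ y) x := by
  have hδ := hG.pos
  have hL : 0 < gain ℓ F := lt_of_lt_of_le hδ hG.le
  have hA : 2 ≤ 2 / δ * gain ℓ F := by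
    rw [div_mul_eq_mul_div, le_div_iff₀ hδ]
    linarith [hG.le]
  by_cases h : total ℓ lam ω x = 0
  · have : drift ℓ lam ω (fun y => (ht F y : ℝ) - 2 / δ * height ℓ y) x = 0 := by
      unfold drift
      simp [h]
    rw [this]
    linarith
  · rw [drift_eq]
    have h1 : ∑ D, sp ℓ lam ω x D * (1 - 2 / δ * gain ℓ F) ≤
        ∑ D, sp ℓ lam ω x D * (((ht F (nbr x D) : ℝ) - 2 / δ * height ℓ (nbr x D)) -
          ((ht F x : ℝ) - 2 / δ * height ℓ x)) := by
      refine Finset.sum_le_sum fun D _ => mul_le_mul_of_nonneg_left ?_ (sp_nonneg ..)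
      have e1 : ((ht F (nbr x D) : ℝ) - 2 / δ * height ℓ (nbr x D)) -
          ((ht F x : ℝ) - 2 / δ * height ℓ x) = (dh F D : ℝ) - 2 / δ * gain ℓ D := by
        rw [ht_nbr, ← height_nbr ℓ x D]
        push_cast
        ring
      rw [e1]
      by_cases hD : D = F
      · rw [hD, dh_self]
        norm_num
      · have h2 := hG.gap D hD
        have h3 : 2 / δ * (gain ℓ D + δ) ≤ 2 / δ * gain ℓ F :=
          mul_le_mul_of_nonneg_left h2 (by positivity)
        have h4 : 2 / δ * (gain ℓ D + δ) = 2 / δ * gain ℓ D + 2 := by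
          field_simp
        have h5 : (-1 : ℝ) ≤ dh F D := by
          have : (-1 : ℤ) ≤ dh F D := by
            rcases dh_cases F D with h | h | h <;> omega
          exact_mod_cast this
        linarith
    rw [← Finset.sum_mul, sum_sp ℓ lam ω x h, one_mul] at h1
    exact h1

end Pool.Agent.P2ec0g
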