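import Pool.Agent.Lib.P2ec0g.Kil

/-!
# One step of the walk for functionals of the path
-/

open MeasureTheory ProbabilityTheory Filter Topology Function
open scoped unitInterval ENNReal

namespace Pool.Agent.P2ec0g

open Pool.Agent.P2ec0f3

variable {d : ℕ} (ℓ : Fin d → ℝ) (lam : ℝ) (ω : Set (Edge d))

/-- Functionals of the path up to time `n`. -/
def Past (n : ℕ) (a : (ℕ → Vtx d) → ℤ) : Prop :=
  ∀ X Y : ℕ → Vtx d, (∀ m ≤ n, X m = Y m) → a X = a Y

/-- The one step formula. -/
lemma integral_step {n : ℕ} {a : (ℕ → Vtx d) → ℤ} (ha : Past n a) (g : Vtx d → ℤ → ℝ)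
    {C : ℝ} (hC : ∀ᵐ X ∂(quenched ℓ lam ω), ∀ y ∈ box d (n + 1), |g y (a X)| ≤ C) :
    ∫ X, g (X (n + 1)) (a X) ∂(quenched ℓ lam ω) =
      ∫ X, (g (X n) (a X) + drift ℓ lam ω (fun y => g y (a X)) (X n)) ∂(quenched ℓ lam ω) := by
  classical
  set T := quenched ℓ lam ω with hT
  have h := Kernel.map_frestrictLe_trajMeasure_compProd_eq_map_trajMeasure
    (X := fun _ : ℕ => Vtx d) (κ := pastKernel ℓ lam ω) (μ₀ := Measure.dirac (0 : Vtx d)) (a := n)
  -- extension of a path up to time `n`
  set ext : ((i : Finset.Iic n) → (fun _ : ℕ => Vtx d) i) → (ℕ → Vtx d) :=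
    fun path m => if hm : m ≤ n then path ⟨m, Finset.mem_Iic.2 hm⟩ else 0 with hext
  set b : ((i : Finset.Iic n) → (fun _ : ℕ => Vtx d) i) → ℤ := fun path => a (ext path) with hb
  have hab : ∀ X : ℕ → Vtx d, b (Preorder.frestrictLe (π := fun _ : ℕ => Vtx d) n X) = a X := by
    intro X
    refine ha _ _ fun m hm => ?_
    simp [hext, hm]
  set G : ((i : Finset.Iic n) → (fun _ : ℕ => Vtx d) i) × Vtx d → ℝ :=
    fun r => g r.2 (b r.1) with hG
  have hGm : Measurable G := measurable_of_countable _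
  have hmap : Measurable (fun x : ℕ → Vtx d =>
      (Preorder.frestrictLe (π := fun _ : ℕ => Vtx d) n x, x (n + 1))) := by fun_prop
  have h1 : ∫ X, g (X (n + 1)) (a X) ∂T =
      ∫ r, G r ∂(T.map (fun x => (Preorder.frestrictLe (π := fun _ : ℕ => Vtx d) n x,
        x (n + 1)))) := by
    rw [integral_map hmap.aemeasurable hGm.aestronglyMeasurable]
    refine integral_congr_ae (ae_of_all _ fun X => ?_)
    simp only [hG, hab]
  have hint : Integrable G (T.map (fun x => (Preorder.frestrictLe (π := fun _ : ℕ => Vtx d) n x,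
        x (n + 1)))) := by
    refine (integrable_map_measure hGm.aestronglyMeasurable hmap.aemeasurable).2 ?_
    refine Integrable.of_bound (C := C) ((hGm.comp hmap).aestronglyMeasurable) ?_
    filter_upwards [hC, ae_mem_box ℓ lam ω (n + 1)] with X hX hb1
    simp only [comp, hG, hab, Real.norm_eq_abs]
    exact hX _ hb1
  rw [h1]
  have h' : T.map (fun x => (Preorder.frestrictLe (π := fun _ : ℕ => Vtx d) n x, x (n + 1))) =
      (T.map (Preorder.frestrictLe (π := fun _ : ℕ => Vtx d) n)) ⊗ₘ (pastKernel ℓ lam ω n) :=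
    h.symm
  rw [h'] at hint ⊢
  rw [Measure.integral_compProd hint, integral_map (by fun_prop)
    (measurable_of_countable _).aestronglyMeasurable]
  refine integral_congr_ae (ae_of_all _ fun X => ?_)
  simp only [hG, hab]
  exact integral_stepLaw ℓ lam ω (fun y => g y (a X)) (X n)

end Pool.Agent.P2ec0g
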